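import Pool.Agent.Helper88.BoggleSat2
import Pool.Agent.Helper96.Complexity

set_option autoImplicit false

namespace Pool.Agent.Helper88.Boggle

open Pool.Agent.Helper96 Classical

theorem DefP.comp3 {F : Inp → ℕ → ℕ → ℕ → Prop} {f g h : Inp → (ℕ → ℕ) → ℕ}
    (hF : DefP fun X v => F X (v 0) (v 1) (v 2)) (hf : Def f)
    (hg : Def g) (hh : Def h) : DefP fun X v => F X (f X v) (g X v) (h X v) :=
  DefP.subst (g := fun i => match i with | 0 => f | 1 => g | _ => h) hF fun i => match i with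
    | 0 => hf
    | 1 => hg
    | _ + 2 => hh

/-- definability of the value of a vector of digits -/
theorem def_val {a : Inp → (ℕ → ℕ) → Fin 7 → ℕ} {N : Inp → (ℕ → ℕ) → ℕ}
    (ha : ∀ i, Def fun X v => a X v i) (hN : Def N) : Def fun X v => val (N X v) (a X v) := by
  have h : Def fun X v => a X v 0 * N X v ^ 0 + a X v 1 * N X v ^ 1 + a X v 2 * N X v ^ 2 +
      a X v 3 * N X v ^ 3 + a X v 4 * N X v ^ 4 + a X v 5 * N X v ^ 5 + a X v 6 * N X v ^ 6 :=
    ((((((((ha 0).mul (hN.pow 0)).add ((ha 1).mul (hN.pow 1))).add ((ha 2).mul (hN.pow 2))).add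
      ((ha 3).mul (hN.pow 3))).add ((ha 4).mul (hN.pow 4))).add ((ha 5).mul (hN.pow 5))).add
      ((ha 6).mul (hN.pow 6)))
  refine h.congr fun X v => ?_
  unfold val
  rw [Fin.sum_univ_seven]
  rfl

section

variable (Φ : CNFData)

/-- number of variables, plus one -/
def vN (X : Inp) : ℕ := Φ.n X + 1

/-- occurrence of literals -/
def litN (X : Inp) (i s j : ℕ) : Prop := i < Φ.n X ∧ Φ.lit X i s j

theorem def_vN : Def fun X _ => vN Φ X := Φ.def_n.add (Def.const 1)

theorem def_m : Def fun X _ => Φ.m X := Φ.def_m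

theorem def_vm : Def fun X _ => vN Φ X * Φ.m X := (def_vN Φ).mul (def_m Φ)

theorem def_bigM : Def fun X _ => bigM (vN Φ X) (Φ.m X) := (def_vm Φ).add (def_m Φ)

theorem def_numF : Def fun X _ => numF (vN Φ X) (Φ.m X) :=
  ((Def.const 2).mul (def_vm Φ)).mul (def_bigM Φ)

theorem def_baseN : Def fun X _ => baseN (vN Φ X) (Φ.m X) :=
  (((Def.const 4).mul (def_vm Φ)).mul (def_bigM Φ)).add (Def.const 5)

theorem def_numK : Def fun X _ => numK (vN Φ X) (Φ.m X) :=
  (((Def.const 2).mul (def_vm Φ)).add (def_m Φ)).add ((Def.const 6).mul (def_numF Φ))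

theorem def_litN : DefP fun X v => litN Φ X (v 0) (v 1) (v 2) :=
  (DefP.lt (Def.var 0) Φ.def_n).and Φ.def_lit

theorem def_litB : DefP fun X v => litB (Φ.m X) (litN Φ X) (v 0) :=
  DefP.comp3 (F := fun X i s j => litN Φ X i s j) (def_litN Φ)
    (((Def.var 0).div (Def.const 2)).div (def_m Φ)) ((Def.var 0).mod (Def.const 2))
    (((Def.var 0).div (Def.const 2)).mod (def_m Φ))

theorem def_lam : Def fun X v => lam (Φ.m X) (v 0) :=
  Def.ite (DefP.eq ((Def.var 0).mod (Def.const 2)) (Def.const 1)) ((Def.var 0).div (Def.const 2))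
    (((((Def.var 0).div (Def.const 2)).div (def_m Φ)).mul (def_m Φ)).add
      (((((Def.var 0).div (Def.const 2)).mod (def_m Φ)).add ((def_m Φ).sub (Def.const 1))).mod
        (def_m Φ))) |>.congr fun X v => by unfold lam; split_ifs <;> rfl

theorem def_dcap (k : Fin 7) : Def fun X v => dcap (vN Φ X) (Φ.m X) (litN Φ X) (v 0) k := by
  have hb2 : Def fun _ v => v 0 / 2 := (Def.var 0).div (Def.const 2)
  fin_cases k
  · exact Def.const 2
  · exact hb2
  · exact (def_bigM Φ).sub hb2
  · exact def_lam Φ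
  · exact (def_bigM Φ).sub (def_lam Φ)
  · exact Def.ite (def_litB Φ) (hb2.mod (def_m Φ)) (Def.const 0)
  · exact Def.ite (def_litB Φ) ((def_bigM Φ).sub (hb2.mod (def_m Φ))) (Def.const 0)

theorem def_bcap0 : Def fun X v => bcap0 (vN Φ X) (Φ.m X) (litN Φ X) (v 0) :=
  def_val (def_dcap Φ) (def_baseN Φ)

theorem def_dsize (k : Fin 7) : Def fun X v => dsize (vN Φ X) (Φ.m X) (v 0) k := by
  have h1 : Def fun X v => dV (vN Φ X) (Φ.m X) (v 0) k := by
    fin_cases k
    · exact Def.const 2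
    · exact Def.var 0
    · exact (def_bigM Φ).sub (Def.var 0)
    all_goals exact Def.const 0
  have h2 : Def fun X v => dL (vN Φ X) (Φ.m X) (v 0) k := by
    fin_cases k
    · exact Def.const 1
    · exact Def.const 0
    · exact Def.const 0
    · exact Def.var 0
    · exact (def_bigM Φ).sub (Def.var 0)
    all_goals exact Def.const 0
  have h3 : Def fun X v => dC (vN Φ X) (Φ.m X) (v 0) k := by
    fin_cases k
    · exact Def.const 1
    · exact Def.const 0
    · exact Def.const 0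
    · exact Def.const 0
    · exact Def.const 0
    · exact Def.var 0
    · exact (def_bigM Φ).sub (Def.var 0)
  have h4 : Def fun _ v => dF (v 0) k :=
    Def.ite (DefP.eq (Def.const k.val) ((Def.var 0).add (Def.const 1))) (Def.const 1) (Def.const 0)
      |>.congr fun X v => by unfold dF; split_ifs <;> rfl
  have h2' := Def.comp1 (F := fun X e => dL (vN Φ X) (Φ.m X) e k) h2
    ((Def.var 0).sub (def_vm Φ))
  have h3' := Def.comp1 (F := fun X e => dC (vN Φ X) (Φ.m X) e k) h3
    ((Def.var 0).sub ((Def.const 2).mul (def_vm Φ)))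
  have h4' := Def.comp1 (F := fun _ e => dF e k) h4
    (((Def.var 0).sub (((Def.const 2).mul (def_vm Φ)).add (def_m Φ))).div (def_numF Φ))
  refine (Def.ite (DefP.lt (Def.var 0) (def_vm Φ)) h1
    (Def.ite (DefP.lt (Def.var 0) ((Def.const 2).mul (def_vm Φ))) h2'
      (Def.ite (DefP.lt (Def.var 0) (((Def.const 2).mul (def_vm Φ)).add (def_m Φ))) h3' h4'))).congr
    fun X v => ?_
  unfold dsize
  split_ifs <;> rfl

theorem def_isize : Def fun X v => isize (vN Φ X) (Φ.m X) (v 0) :=
  def_val (def_dsize Φ) (def_baseN Φ)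

theorem def_psum {f : Inp → ℕ → ℕ} (hf : Def fun X v => f X (v 0)) :
    Def fun X v => psum (f X) (v 0) := Def.sum (Def.var 0) hf

theorem def_psum' {f : Inp → ℕ → ℕ} {g : Inp → (ℕ → ℕ) → ℕ} (hf : Def fun X v => f X (v 0))
    (hg : Def g) : Def fun X v => psum (f X) (g X v) :=
  Def.comp1 (F := fun X b => psum (f X) b) (def_psum hf) hg

/-- capacities -/
noncomputable def capN (X : Inp) : ℕ → ℕ := bcap (vN Φ X) (Φ.m X) (litN Φ X)

/-- number of bins -/
def binN (X : Inp) : ℕ := 2 * (vN Φ X * Φ.m X) + 1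

theorem def_binN : Def fun X _ => binN Φ X := ((Def.const 2).mul (def_vm Φ)).add (Def.const 1)

theorem def_capN : Def fun X v => capN Φ X (v 0) := by
  refine (Def.ite (DefP.lt (Def.var 0) ((Def.const 2).mul (def_vm Φ))) (def_bcap0 Φ)
    (((def_psum' (def_isize Φ) (def_numK Φ)).add ((def_vm Φ).sub (def_m Φ))).sub
      (def_psum' (def_bcap0 Φ) ((Def.const 2).mul (def_vm Φ))))).congr fun X v => ?_
  unfold capN bcap
  split_ifs <;> rfl

/-- side length -/
noncomputable def sideX (X : Inp) : ℕ := sideN (vN Φ X) (Φ.m X) (litN Φ X)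

theorem def_sideX : Def fun X _ => sideX Φ X :=
  (((Def.const 4).mul (def_binN Φ)).add (def_psum' (def_capN Φ) (def_binN Φ))).add (Def.const 6)

theorem def_isCorr : DefP fun X v => IsCorr (binN Φ X) (capN Φ X) (v 0) (v 1) := by
  have hr : Def fun _ v => v 0 := Def.var 0
  have hc : Def fun _ v => v 1 := Def.var 1
  exact (DefP.eq (hr.mod (Def.const 4)) (Def.const 3)).and
    ((DefP.lt (hr.div (Def.const 4)) (def_binN Φ)).and
      ((DefP.le (Def.const 3) hc).and
        (DefP.lt hc ((Def.const 3).add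
          (Def.comp1 (F := fun X b => capN Φ X b) (def_capN Φ) (hr.div (Def.const 4)))))))

theorem def_gidx : Def fun X v => gidx (capN Φ X) (v 0) (v 1) :=
  (def_psum' (def_capN Φ) ((Def.var 0).div (Def.const 4))).add ((Def.var 1).sub (Def.const 3))

/-- the adjacency graph of the puzzle -/
noncomputable def edgeN (X : Inp) (x y : ℕ) : Prop :=
  Edge (sideX Φ X) (binN Φ X) (numK (vN Φ X) (Φ.m X)) (capN Φ X) (isize (vN Φ X) (Φ.m X)) x y

theorem def_edgeN : DefP fun X v => edgeN Φ X (v 0) (v 1) := by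
  have hs := def_sideX Φ
  have row : ∀ i, Def fun X v => v i / sideX Φ X := fun i => (Def.var i).div hs
  have col : ∀ i, Def fun X v => v i % sideX Φ X := fun i => (Def.var i).mod hs
  have corr : ∀ i, DefP fun X v => IsCorr (binN Φ X) (capN Φ X) (v i / sideX Φ X)
      (v i % sideX Φ X) := fun i =>
    DefP.comp2 (F := fun X r c => IsCorr (binN Φ X) (capN Φ X) r c) (def_isCorr Φ) (row i) (col i)
  have gi : ∀ i, Def fun X v => gidx (capN Φ X) (v i / sideX Φ X) (v i % sideX Φ X) := fun i =>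
    Def.comp2 (F := fun X r c => gidx (capN Φ X) r c) (def_gidx Φ) (row i) (col i)
  have nadj : DefP fun X v => NAdj (sideX Φ X) (v 0) (v 1) :=
    (DefP.eq (Def.var 0) (Def.var 1)).not.and
      ((DefP.le (row 0) ((row 1).add (Def.const 1))).and
        ((DefP.le (row 1) ((row 0).add (Def.const 1))).and
          ((DefP.le (col 0) ((col 1).add (Def.const 1))).and
            (DefP.le (col 1) ((col 0).add (Def.const 1))))))
  have item : DefP fun X v => ∃ u < numK (vN Φ X) (Φ.m X),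
      psum (isize (vN Φ X) (Φ.m X)) u ≤ gidx (capN Φ X) (v 0 / sideX Φ X) (v 0 % sideX Φ X) ∧
      gidx (capN Φ X) (v 1 / sideX Φ X) (v 1 % sideX Φ X) <
        psum (isize (vN Φ X) (Φ.m X)) (u + 1) := by
    have := DefP.ex (def_numK Φ) (P := fun X v =>
      psum (isize (vN Φ X) (Φ.m X)) (v 0) ≤ gidx (capN Φ X) (v 1 / sideX Φ X) (v 1 % sideX Φ X) ∧
      gidx (capN Φ X) (v 2 / sideX Φ X) (v 2 % sideX Φ X) <
        psum (isize (vN Φ X) (Φ.m X)) (v 0 + 1))
      ((DefP.le (def_psum' (def_isize Φ) (Def.var 0)) (gi 1)).and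
        (DefP.lt (gi 2) (def_psum' (def_isize Φ) ((Def.var 0).add (Def.const 1)))))
    exact this
  exact ((corr 0).not.and ((corr 1).not.and nadj)).or
    ((corr 0).and ((corr 1).and ((DefP.eq (gi 1) ((gi 0).add (Def.const 1))).and item)))

/-- **The puzzle is solvable iff the formula is satisfiable.** -/
theorem placement_iff (X : Inp) :
    (∃ pos, IsPlacement (sideX Φ X) (edgeN Φ X) pos) ↔ ∃ α : Fin (Φ.n X) → Bool, Φ.Sat X α := by
  have hv : 0 < vN Φ X := Nat.succ_pos _
  have h := placement_iff_sat (lit := litN Φ X) hv (Φ.m_pos X)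
  rw [show (∃ pos, IsPlacement (sideX Φ X) (edgeN Φ X) pos) ↔ SatN (vN Φ X) (Φ.m X) (litN Φ X)
    from h]
  constructor
  · rintro ⟨α, hα⟩
    refine ⟨fun i => α i, fun j hj => ?_⟩
    obtain ⟨i, -, hi, hl⟩ := hα j hj
    exact ⟨⟨i, hi⟩, hl⟩
  · rintro ⟨α, hα⟩
    refine ⟨fun i => if h : i < Φ.n X then α ⟨i, h⟩ else false, fun j hj => ?_⟩
    obtain ⟨i, hl⟩ := hα j hj
    refine ⟨i, by have := i.2; unfold vN; omega, i.2, ?_⟩
    simpa using hl

end

end Pool.Agent.Helper88.Boggle
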