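import Mathlib

set_option autoImplicit false

namespace Pool.Agent.Helper88.Boggle

/-! ### Lists of bits made of blocks -/

theorem bool_ext {l l' : List Bool} (hlen : l.length = l'.length)
    (h : ∀ i < l.length, l[i]? = some true ↔ l'[i]? = some true) : l = l' := by
  apply List.ext_getElem? 
  intro i
  by_cases hi : i < l.length
  · have h1 := h i hi
    have hi' : i < l'.length := hlen ▸ hi
    rw [List.getElem?_eq_getElem hi, List.getElem?_eq_getElem hi'] at h1 ⊢
    simp only [Option.some.injEq] at h1 ⊢
    cases hx : l[i] <;> cases hy : l'[i] <;> simp_all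
  · rw [List.getElem?_eq_none (by omega), List.getElem?_eq_none (by omega)]

/-- The number `a` written in unary, padded to length `L`. -/
def blk (L a : ℕ) : List Bool := List.replicate a true ++ List.replicate (L - a) false

theorem length_blk {L a : ℕ} (h : a ≤ L) : (blk L a).length = L := by
  simp [blk]; omega

theorem getElem?_blk {L a t : ℕ} (_ht : t < L) : (blk L a)[t]? = some true ↔ t < a := by
  unfold blk
  rw [List.getElem?_append]
  simp only [List.length_replicate]
  split_ifs with h
  · simp [h]
  · rw [List.getElem?_replicate]
    split_ifs <;> simp [h]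

theorem length_flatMap_blk {L : ℕ} {cs : List ℕ} (h : ∀ a ∈ cs, a ≤ L) :
    (cs.flatMap (blk L)).length = cs.length * L := by
  induction cs with
  | nil => simp
  | cons a cs ih =>
    rw [List.flatMap_cons, List.length_append, ih fun b hb => h b (List.mem_cons_of_mem _ hb),
      length_blk (h a (List.mem_cons_self ..)), List.length_cons]
    ring

theorem getElem?_flatMap_blk {L : ℕ} {cs : List ℕ} (h : ∀ a ∈ cs, a ≤ L) {k t : ℕ}
    (hk : k < cs.length) (ht : t < L) :
    (cs.flatMap (blk L))[k * L + t]? = some true ↔ t < cs.getD k 0 := by
  induction cs generalizing k with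
  | nil => simp at hk
  | cons a cs ih =>
    have ha := h a (List.mem_cons_self ..)
    rw [List.flatMap_cons, List.getElem?_append, length_blk ha]
    cases k with
    | zero =>
      rw [Nat.zero_mul, Nat.zero_add, if_pos ht, getElem?_blk ht]
      simp
    | succ k =>
      have h1 : ¬ (k + 1) * L + t < L := by nlinarith
      have h2 : (k + 1) * L + t - L = k * L + t := by
        rw [Nat.succ_mul]; omega
      rw [if_neg h1, h2, ih (fun b hb => h b (List.mem_cons_of_mem _ hb)) (by simpa using hk)]
      simp

/-- `1^n 0` followed by blocks. -/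
def encCs (n L : ℕ) (cs : List ℕ) : List Bool :=
  List.replicate n true ++ [false] ++ cs.flatMap (blk L)

theorem length_encCs {n L : ℕ} {cs : List ℕ} (h : ∀ a ∈ cs, a ≤ L) :
    (encCs n L cs).length = n + 1 + cs.length * L := by
  simp only [encCs, List.length_append, List.length_replicate, List.length_singleton,
    length_flatMap_blk h]

theorem getElem?_encCs_left {n L : ℕ} {cs : List ℕ} {i : ℕ} (hi : i < n) :
    (encCs n L cs)[i]? = some true := by
  unfold encCs
  rw [List.getElem?_append_left (by simp; omega), List.getElem?_append_left (by simpa using hi)]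
  simp [hi]

theorem getElem?_encCs_mid {n L : ℕ} {cs : List ℕ} :
    (encCs n L cs)[n]? = some false := by
  unfold encCs
  rw [List.getElem?_append_left (by simp), List.getElem?_append_right (by simp)]
  simp

theorem getElem?_encCs_right {n L : ℕ} {cs : List ℕ} (h : ∀ a ∈ cs, a ≤ L) {k t : ℕ}
    (hk : k < cs.length) (ht : t < L) :
    (encCs n L cs)[n + 1 + (k * L + t)]? = some true ↔ t < cs.getD k 0 := by
  unfold encCs
  rw [List.getElem?_append_right (by simp)]
  simp only [List.length_append, List.length_replicate, List.length_singleton]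
  rw [Nat.add_sub_cancel_left, getElem?_flatMap_blk h hk ht]

/-- Characterisation of the strings `encCs n L cs`. -/
theorem eq_encCs_iff {n L : ℕ} (hL : 0 < L) {cs : List ℕ} (h : ∀ a ∈ cs, a ≤ L) (s : List Bool) :
    s = encCs n L cs ↔ s.length = n + 1 + cs.length * L ∧ (∀ i < n, s[i]? = some true) ∧
      ¬ s[n]? = some true ∧ ∀ k < cs.length, ∀ t < L,
        (s[n + 1 + (k * L + t)]? = some true ↔ t < cs.getD k 0) := by
  constructor
  · rintro rfl
    refine ⟨length_encCs h, fun i hi => getElem?_encCs_left hi, ?_, fun k hk t ht =>
      getElem?_encCs_right h hk ht⟩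
    rw [getElem?_encCs_mid]
    simp
  · rintro ⟨h1, h2, h3, h4⟩
    apply bool_ext
    · rw [h1, length_encCs h]
    · intro i hi
      rw [h1] at hi
      rcases lt_trichotomy i n with h5 | h5 | h5
      · rw [h2 i h5, getElem?_encCs_left h5]
      · subst h5
        rw [getElem?_encCs_mid]
        simp [h3]
      · obtain ⟨q, rfl⟩ : ∃ q, i = n + 1 + q := ⟨i - (n + 1), by omega⟩
        have hq : q < cs.length * L := by omega
        have hk : q / L < cs.length := Nat.div_lt_of_lt_mul (by rwa [mul_comm])
        have ht : q % L < L := Nat.mod_lt _ hL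
        have e : q = q / L * L + q % L := by
          rw [mul_comm]
          exact (Nat.div_add_mod q L).symm
        rw [e, h4 _ hk _ ht, getElem?_encCs_right h hk ht]

/-! ### Words and blocks -/

/-- a word over `{1, ..., L}`: pairwise distinct letters, length at least `2` -/
def IsWordL (L : ℕ) (w : List ℕ) : Prop :=
  2 ≤ w.length ∧ w.Nodup ∧ ∀ a ∈ w, 1 ≤ a ∧ a ≤ L

/-- the blocks of a list of words: each word is followed by a `0` -/
def toCs (P : List (List ℕ)) : List ℕ := P.flatMap fun w => w ++ [0]

theorem toCs_cons (w : List ℕ) (P : List (List ℕ)) : toCs (w :: P) = w ++ 0 :: toCs P := by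
  simp [toCs]

/-- well-formed lists of blocks -/
def CsOK (L : ℕ) (c : ℕ → ℕ) (K : ℕ) : Prop :=
  (∀ k < K, c k ≤ L) ∧
  (∀ k < K, c k = 0 → 2 ≤ k ∧ c (k - 1) ≠ 0 ∧ c (k - 2) ≠ 0) ∧
  (0 < K → c (K - 1) = 0) ∧
  (∀ k < K, ∀ j < k, (∀ i < K, j ≤ i → i ≤ k → c i ≠ 0) → c j ≠ c k)

theorem csOK_of_words {L : ℕ} {P : List (List ℕ)} (hP : ∀ w ∈ P, IsWordL L w) :
    CsOK L (fun k => (toCs P).getD k 0) (toCs P).length := by
  induction P with
  | nil => refine ⟨?_, ?_, ?_, ?_⟩ <;> simp [toCs]
  | cons w P ih =>
    obtain ⟨w1, w2, w3⟩ := hP w (List.mem_cons_self ..)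
    obtain ⟨i1, i2, i3, i4⟩ := ih fun w hw => hP w (List.mem_cons_of_mem _ hw)
    have gl : ∀ k < w.length, (toCs (w :: P)).getD k 0 = w.getD k 0 := by
      intro k hk
      rw [toCs_cons]
      simp only [List.getD_eq_getElem?_getD]
      rw [List.getElem?_append_left hk]
    have gm : (toCs (w :: P)).getD w.length 0 = 0 := by
      rw [toCs_cons]
      simp only [List.getD_eq_getElem?_getD]
      rw [List.getElem?_append_right le_rfl]
      simp
    have gr : ∀ k, (toCs (w :: P)).getD (w.length + 1 + k) 0 = (toCs P).getD k 0 := by
      intro k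
      rw [toCs_cons]
      simp only [List.getD_eq_getElem?_getD]
      rw [List.getElem?_append_right (by omega)]
      have : w.length + 1 + k - w.length = k + 1 := by omega
      rw [this, List.getElem?_cons_succ]
    have wn : ∀ k < w.length, 1 ≤ w.getD k 0 ∧ w.getD k 0 ≤ L := by
      intro k hk
      rw [List.getD_eq_getElem _ _ hk]
      exact w3 _ (List.getElem_mem hk)
    have hlen : (toCs (w :: P)).length = w.length + 1 + (toCs P).length := by
      rw [toCs_cons]
      simp
      omega
    rw [hlen]
    have cases3 : ∀ k < w.length + 1 + (toCs P).length, k < w.length ∨ k = w.length ∨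
        ∃ k' < (toCs P).length, k = w.length + 1 + k' := by
      intro k hk
      rcases lt_trichotomy k w.length with h | h | h
      · exact Or.inl h
      · exact Or.inr (Or.inl h)
      · exact Or.inr (Or.inr ⟨k - (w.length + 1), by omega, by omega⟩)
    refine ⟨?_, ?_, ?_, ?_⟩
    · intro k hk
      simp only []
      rcases cases3 k hk with h | rfl | ⟨k', h, rfl⟩
      · rw [gl k h]; exact (wn k h).2
      · rw [gm]; exact Nat.zero_le _
      · rw [gr]; exact i1 k' h
    · intro k hk h0
      simp only [] at h0 ⊢
      rcases cases3 k hk with h | rfl | ⟨k', h, rfl⟩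
      · rw [gl k h] at h0
        have := (wn k h).1
        omega
      · rw [gl (w.length - 1) (by omega), gl (w.length - 2) (by omega)]
        have h1 := (wn (w.length - 1) (by omega)).1
        have h2 := (wn (w.length - 2) (by omega)).1
        omega
      · rw [gr] at h0
        obtain ⟨j1, j2, j3⟩ := i2 k' h h0
        have e1 : w.length + 1 + k' - 1 = w.length + 1 + (k' - 1) := by omega
        have e2 : w.length + 1 + k' - 2 = w.length + 1 + (k' - 2) := by omega
        rw [e1, e2, gr, gr]
        exact ⟨by omega, j2, j3⟩
    · intro _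
      simp only []
      by_cases hP0 : 0 < (toCs P).length
      · have e : w.length + 1 + (toCs P).length - 1 = w.length + 1 + ((toCs P).length - 1) := by
          omega
        rw [e, gr]
        exact i3 hP0
      · have e : w.length + 1 + (toCs P).length - 1 = w.length := by omega
        rw [e, gm]
    · intro k hk j hj hall
      simp only [] at hall ⊢
      rcases cases3 k hk with h | rfl | ⟨k', h, rfl⟩
      · rw [gl k h, gl j (by omega), List.getD_eq_getElem _ _ h,
          List.getD_eq_getElem _ _ (show j < w.length by omega)]
        intro he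
        have := (List.Nodup.getElem_inj_iff w2).1 he
        omega
      · have := hall w.length (by omega) (by omega) le_rfl
        exact absurd gm this
      · by_cases hjw : j ≤ w.length
        · have := hall w.length (by omega) hjw (by omega)
          exact absurd gm this
        · obtain ⟨j', rfl⟩ : ∃ j', j = w.length + 1 + j' := ⟨j - (w.length + 1), by omega⟩
          rw [gr, gr]
          apply i4 k' h j' (by omega)
          intro i hi h1 h2
          have := hall (w.length + 1 + i) (by omega) (by omega) (by omega)
          rwa [gr] at this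

theorem words_of_csOK {L : ℕ} : ∀ (K : ℕ) (c : ℕ → ℕ), CsOK L c K →
    ∃ P : List (List ℕ), (∀ w ∈ P, IsWordL L w) ∧ (List.range K).map c = toCs P := by
  intro K
  induction K using Nat.strong_induction_on with
  | _ K ih =>
    intro c hc
    obtain ⟨c1, c2, c3, c4⟩ := hc
    by_cases hK : K = 0
    · subst hK
      exact ⟨[], by simp, by simp [toCs]⟩
    · have hex : ∃ z, z < K ∧ c z = 0 := ⟨K - 1, by omega, c3 (by omega)⟩
      classical
      let z := Nat.find hex
      have hz : z < K ∧ c z = 0 := Nat.find_spec hex
      have hmin : ∀ i < z, c i ≠ 0 := by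
        intro i hi h0
        exact Nat.find_min hex hi ⟨by omega, h0⟩
      obtain ⟨z1, -, -⟩ := c2 z hz.1 hz.2
      have hrest : CsOK L (fun k => c (z + 1 + k)) (K - (z + 1)) := by
        refine ⟨fun k hk => c1 _ (by omega), ?_, ?_, ?_⟩
        · intro k hk h0
          obtain ⟨d1, d2, d3⟩ := c2 (z + 1 + k) (by omega) h0
          have k0 : k ≠ 0 := by
            rintro rfl
            apply d2
            have : z + 1 + 0 - 1 = z := by omega
            rw [this]; exact hz.2
          have k1 : k ≠ 1 := by
            rintro rfl
            apply d3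
            have : z + 1 + 1 - 2 = z := by omega
            rw [this]; exact hz.2
          simp only []
          have e1 : z + 1 + (k - 1) = z + 1 + k - 1 := by omega
          have e2 : z + 1 + (k - 2) = z + 1 + k - 2 := by omega
          rw [e1, e2]
          exact ⟨by omega, d2, d3⟩
        · intro h0
          simp only []
          have : z + 1 + (K - (z + 1) - 1) = K - 1 := by omega
          rw [this]
          exact c3 (by omega)
        · intro k hk j hj hall
          apply c4 (z + 1 + k) (by omega) (z + 1 + j) (by omega)
          intro i hi h1 h2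
          have := hall (i - (z + 1)) (by omega) (by omega) (by omega)
          simp only [] at this
          have e : z + 1 + (i - (z + 1)) = i := by omega
          rwa [e] at this
      obtain ⟨P, hP1, hP2⟩ := ih (K - (z + 1)) (by omega) _ hrest
      refine ⟨((List.range z).map c) :: P, ?_, ?_⟩
      · intro w hw
        rcases List.mem_cons.1 hw with rfl | hw
        · refine ⟨by simpa using z1, ?_, ?_⟩
          · rw [List.nodup_map_iff_inj_on List.nodup_range]
            intro i hi j hj hij
            rw [List.mem_range] at hi hj
            by_contra hne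
            rcases Nat.lt_or_gt_of_ne hne with h | h
            · exact c4 j (by omega) i h (fun k _ _ h2 => hmin k (by omega)) hij
            · exact c4 i (by omega) j h (fun k _ _ h2 => hmin k (by omega)) hij.symm
          · intro a ha
            rw [List.mem_map] at ha
            obtain ⟨i, hi, rfl⟩ := ha
            rw [List.mem_range] at hi
            exact ⟨Nat.one_le_iff_ne_zero.2 (hmin i hi), c1 i (by omega)⟩
        · exact hP1 w hw
      · rw [toCs_cons, ← hP2]
        have e : K = z + 1 + (K - (z + 1)) := by omega
        conv_lhs => rw [e]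
        rw [List.range_add, List.map_append, List.range_succ, List.map_append, List.map_map]
        simp [hz.2]

theorem map_getD_range (cs : List ℕ) : (List.range cs.length).map (fun k => cs.getD k 0) = cs := by
  apply List.ext_getElem
  · simp
  · intro i h1 h2
    simp [h2]

/-- chains of words versus chains of blocks -/
theorem chain_iff {L : ℕ} {R : ℕ → ℕ → Prop} {P : List (List ℕ)} (hP : ∀ w ∈ P, IsWordL L w) :
    (∀ w ∈ P, w.IsChain R) ↔ ∀ k, k + 1 < (toCs P).length → (toCs P).getD k 0 ≠ 0 →
      (toCs P).getD (k + 1) 0 ≠ 0 → R ((toCs P).getD k 0) ((toCs P).getD (k + 1) 0) := by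
  have key : (∀ w ∈ P, w.IsChain R) ↔ (toCs P).IsChain (fun a b => a ≠ 0 → b ≠ 0 → R a b) := by
    induction P with
    | nil => simp [toCs]
    | cons w P ih =>
      rw [toCs_cons, List.forall_mem_cons, ih fun w hw => hP w (List.mem_cons_of_mem _ hw),
        List.isChain_append]
      have h0 : ∀ a ∈ w, a ≠ 0 := fun a ha => by
        have := ((hP w (List.mem_cons_self ..)).2.2 a ha).1
        omega
      have h1 : w.IsChain R ↔ w.IsChain (fun a b => a ≠ 0 → b ≠ 0 → R a b) := by
        constructor
        · intro h
          exact h.imp fun a b hab _ _ => hab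
        · intro h
          rw [List.isChain_iff_getElem] at h ⊢
          intro i hi
          exact h i hi (h0 _ (List.getElem_mem _)) (h0 _ (List.getElem_mem _))
      have h2 : List.IsChain (fun a b => a ≠ 0 → b ≠ 0 → R a b) (0 :: toCs P) ↔
          List.IsChain (fun a b => a ≠ 0 → b ≠ 0 → R a b) (toCs P) := by
        rw [List.isChain_cons]
        constructor
        · exact fun h => h.2
        · exact fun h => ⟨fun y _ h0 => absurd rfl h0, h⟩
      rw [h1, h2]
      constructor
      · rintro ⟨a, b⟩
        refine ⟨a, b, ?_⟩
        intro x _ y hy _ hy0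
        simp at hy
        exact absurd hy.symm hy0
      · rintro ⟨a, b, -⟩
        exact ⟨a, b⟩
  rw [key, List.isChain_iff_getElem]
  constructor
  · intro h k hk h1 h2
    rw [List.getD_eq_getElem _ _ (show k < _ by omega)] at h1
    rw [List.getD_eq_getElem _ _ hk] at h2
    rw [List.getD_eq_getElem _ _ (show k < _ by omega), List.getD_eq_getElem _ _ hk]
    exact h k hk h1 h2
  · intro h k hk h1 h2
    have := h k hk
    rw [List.getD_eq_getElem _ _ (show k < _ by omega), List.getD_eq_getElem _ _ hk] at this
    exact this h1 h2

end Pool.Agent.Helper88.Boggle
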