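import Pool.Agent.Helper88.BoggleRigid

set_option autoImplicit false

namespace Pool.Agent.Helper88.Boggle

variable {n Bn K : ℕ} {cap size : ℕ → ℕ}

/-- Global rigidity: an injective adjacency preserving map on the frame is an affine isometry. -/
theorem frame_rigid (hn1 : 4 * Bn + 3 ≤ n) (hn2 : ∀ b < Bn, cap b + 6 ≤ n)
    {φ : ℤ × ℤ → ℤ × ℤ}
    (hadj : ∀ p q, Fr n Bn cap p → Fr n Bn cap q → KAdj p q → KAdj (φ p) (φ q))
    (hinj : ∀ p q, Fr n Bn cap p → Fr n Bn cap q → φ p = φ q → p = q) :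
    ∃ a u v, Perp u v ∧ ∀ p, Fr n Bn cap p → φ p = aff a u v p := by
  have full11 : ∀ r : ℤ, 1 ≤ r → r ≤ n - 2 → ∀ p, InW (r, 1) p → Fr n Bn cap p := by
    intro r h1 h2 p hp
    rw [inW_iff] at hp
    simp only [] at hp
    exact fr_of (by omega) (by omega) (by omega) (by omega) (Or.inr (Or.inr (Or.inl (by omega))))
  obtain ⟨u, v, huv, h⟩ := window_rigid (φ := φ) (z := (1, 1))
    (fun p q hp hq => hadj p q (full11 1 le_rfl (by omega) p hp) (full11 1 le_rfl (by omega) q hq))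
    (fun p q hp hq => hinj p q (full11 1 le_rfl (by omega) p hp) (full11 1 le_rfl (by omega) q hq))
  let a : ℤ × ℤ := φ (1, 1) - (u.1 + v.1, u.2 + v.2)
  have g0 : Good φ a u v (1, 1) := by
    apply good_of_window h
    ext <;> simp [aff, a] <;> ring
  have gcol : ∀ r : ℤ, 1 ≤ r → r ≤ n - 2 → Good φ a u v (r, 1) := by
    intro r h1 h2
    have := good_col hadj hinj g0 (r - 1).toNat (fun r' h3 h4 => full11 r' h3 (by omega))
    have e : (1 : ℤ) + ((r - 1).toNat : ℤ) = r := by omega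
    rwa [e] at this
  have grow : ∀ r c : ℤ, 1 ≤ r → r ≤ n - 2 → (r % 4 = 1 ∨ 4 * (Bn : ℤ) + 1 ≤ r) →
      1 ≤ c → c ≤ n - 2 → Good φ a u v (r, c) := by
    intro r c h1 h2 h3 h4 h5
    have := good_row hadj hinj (gcol r h1 h2) (c - 1).toNat (fun c' h6 h7 p hp => by
      rw [inW_iff] at hp
      simp only [] at hp
      refine fr_of (by omega) (by omega) (by omega) (by omega) ?_
      rcases h3 with h3 | h3
      · left; omega
      · right; left; omega)
    have e : (1 : ℤ) + ((c - 1).toNat : ℤ) = c := by omega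
    rwa [e] at this
  have gright : ∀ (b : ℕ) (c : ℤ), b < Bn → 4 + (cap b : ℤ) ≤ c → c ≤ n - 2 →
      Good φ a u v (4 * b + 3, c) := by
    intro b c hb h1 h2
    have h0 := grow (4 * b + 1) c (by omega) (by omega) (Or.inl (by omega)) (by omega) h2
    have := good_col hadj hinj h0 2 (fun r' h6 h7 p hp => by
      rw [inW_iff] at hp
      simp only [] at hp h7
      push_cast at h7
      by_cases hr : p.1 = 4 * b + 3
      · refine fr_of (by omega) (by omega) (by omega) (by omega) ?_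
        right; right; right
        intro b' hb' _
        have : b' = b := by omega
        subst this
        omega
      · exact fr_of (by omega) (by omega) (by omega) (by omega) (by left; omega))
    have e : (4 * (b : ℤ) + 1) + ((2 : ℕ) : ℤ) = 4 * b + 3 := by push_cast; ring
    rwa [e] at this
  refine ⟨a, u, v, huv, ?_⟩
  rintro ⟨r, c⟩ ⟨h1, h2, h3, h4, h5⟩
  simp only [] at h1 h2 h3 h4 h5
  by_cases hc : c ≤ 2
  · refine gcol (max 1 (min r (n - 2))) (by omega) (by omega) _ ?_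
    rw [inW_iff]
    simp only []
    omega
  · by_cases hr : 4 * (Bn : ℤ) ≤ r
    · refine grow (max (4 * Bn + 1) (min r (n - 2))) (max 1 (min c (n - 2))) (by omega) (by omega)
        (Or.inr (by omega)) (by omega) (by omega) _ ?_
      rw [inW_iff]
      simp only []
      omega
    · by_cases hr3 : r % 4 = 3
      · have hb : r.toNat / 4 < Bn := by omega
        have hcap : 3 + (cap (r.toNat / 4) : ℤ) ≤ c := by
          by_contra hcon
          exact h5 ⟨by omega, hb, by omega, by omega⟩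
        have hn := hn2 _ hb
        have := gright (r.toNat / 4) (max (4 + cap (r.toNat / 4)) (min c (n - 2))) hb
          (by omega) (by omega)
        apply this
        rw [inW_iff]
        simp only []
        have hh : 4 * ((r.toNat / 4 : ℕ) : ℤ) + 3 = r := by omega
        omega
      · refine grow (4 * (r / 4) + 1) (max 1 (min c (n - 2))) (by omega) (by omega)
          (Or.inl (by omega)) (by omega) (by omega) _ ?_
        rw [inW_iff]
        simp only []
        omega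

/-- the inverse of `aff a u v` -/
def invAff (a u v q : ℤ × ℤ) : ℤ × ℤ :=
  ((q.1 - a.1) * u.1 + (q.2 - a.2) * u.2, (q.1 - a.1) * v.1 + (q.2 - a.2) * v.2)

theorem invAff_aff {a u v : ℤ × ℤ} (h : Perp u v) (p : ℤ × ℤ) : invAff a u v (aff a u v p) = p := by
  unfold Perp at h
  obtain ⟨p1, p2⟩ := p
  rcases h with ⟨h1 | h1, h3 | h3⟩ | ⟨h1 | h1, h3 | h3⟩ <;> subst h1 <;> subst h3 <;>
    simp [invAff, aff]

theorem aff_invAff {a u v : ℤ × ℤ} (h : Perp u v) (p : ℤ × ℤ) : aff a u v (invAff a u v p) = p := by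
  unfold Perp at h
  obtain ⟨p1, p2⟩ := p
  rcases h with ⟨h1 | h1, h3 | h3⟩ | ⟨h1 | h1, h3 | h3⟩ <;> subst h1 <;> subst h3 <;>
    simp [invAff, aff]

theorem kadj_invAff {a u v p q : ℤ × ℤ} (h : Perp u v) (hpq : KAdj p q) :
    KAdj (invAff a u v p) (invAff a u v q) := by
  rw [kadj_iff] at *
  obtain ⟨p1, p2⟩ := p
  obtain ⟨q1, q2⟩ := q
  unfold Perp at h
  rcases h with ⟨h1 | h1, h3 | h3⟩ | ⟨h1 | h1, h3 | h3⟩ <;> subst h1 <;> subst h3 <;>
    simp only [invAff, mul_one, mul_zero, mul_neg, add_zero, zero_add, neg_zero] at * <;> omega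

/-- If the affine isometry maps three corners of the box into the box, its inverse maps the box
into itself. -/
theorem invAff_box {a u v : ℤ × ℤ} (h : Perp u v) {N : ℤ} 
    (h00 : 0 ≤ a.1 ∧ a.1 ≤ N ∧ 0 ≤ a.2 ∧ a.2 ≤ N)
    (h10 : 0 ≤ (aff a u v (N, 0)).1 ∧ (aff a u v (N, 0)).1 ≤ N ∧
      0 ≤ (aff a u v (N, 0)).2 ∧ (aff a u v (N, 0)).2 ≤ N)
    (h01 : 0 ≤ (aff a u v (0, N)).1 ∧ (aff a u v (0, N)).1 ≤ N ∧
      0 ≤ (aff a u v (0, N)).2 ∧ (aff a u v (0, N)).2 ≤ N)
    {q : ℤ × ℤ} (hq : 0 ≤ q.1 ∧ q.1 ≤ N ∧ 0 ≤ q.2 ∧ q.2 ≤ N) :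
    0 ≤ (invAff a u v q).1 ∧ (invAff a u v q).1 ≤ N ∧ 0 ≤ (invAff a u v q).2 ∧
      (invAff a u v q).2 ≤ N := by
  obtain ⟨q1, q2⟩ := q
  obtain ⟨a1, a2⟩ := a
  unfold Perp at h
  rcases h with ⟨h1 | h1, h3 | h3⟩ | ⟨h1 | h1, h3 | h3⟩ <;> subst h1 <;> subst h3 <;>
    simp only [invAff, aff, mul_one, mul_zero, mul_neg, add_zero, zero_add, neg_zero,
      zero_mul] at * <;> omega

end Pool.Agent.Helper88.Boggle
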