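import Pool.Agent.Helper88.BoggleFrame

set_option autoImplicit false

namespace Pool.Agent.Helper88.Boggle

variable {n Bn K : ℕ} {cap size : ℕ → ℕ}

/-- A packing of the items `0, ..., K - 1` into the bins `0, ..., Bn - 1`. -/
def IsPacking (Bn K : ℕ) (cap size : ℕ → ℕ) (f : ℕ → ℕ) : Prop :=
  (∀ u < K, f u < Bn) ∧
    ∀ b < Bn, ∑ u ∈ (Finset.range K).filter (fun u => f u = b), size u ≤ cap b

/-- The name of the letter whose reference cell is `(r, c)`. -/
def nameOf (n r c : ℕ) : ℕ := r * n + c

theorem nameOf_div {r c : ℕ} (hc : c < n) : nameOf n r c / n = r := by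
  unfold nameOf
  rw [mul_comm, Nat.mul_add_div (by omega), Nat.div_eq_of_lt hc, add_zero]

theorem nameOf_mod {r c : ℕ} (hc : c < n) : nameOf n r c % n = c := by
  unfold nameOf
  rw [mul_comm, Nat.mul_add_mod, Nat.mod_eq_of_lt hc]

theorem nameOf_lt {r c : ℕ} (hr : r < n) (hc : c < n) : nameOf n r c < n * n := by
  unfold nameOf
  nlinarith

theorem nameOf_div_mod (x : ℕ) : nameOf n (x / n) (x % n) = x := by
  unfold nameOf
  rw [mul_comm]
  exact Nat.div_add_mod x n

/-- There is a letter for each index of a corridor cell. -/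
theorem exists_name (hn1 : 4 * Bn + 3 ≤ n) (hn2 : ∀ b < Bn, cap b + 6 ≤ n) :
    ∃ nm : ℕ → ℕ, ∀ g < psum cap Bn, nm g < n * n ∧
      IsCorr Bn cap (nm g / n) (nm g % n) ∧ gidx cap (nm g / n) (nm g % n) = g := by
  have : ∀ g, ∃ x, g < psum cap Bn → x < n * n ∧ IsCorr Bn cap (x / n) (x % n) ∧
      gidx cap (x / n) (x % n) = g := by
    intro g
    by_cases hg : g < psum cap Bn
    · obtain ⟨b, hb, h1, h2⟩ := exists_split hg
      rw [psum_succ] at h2
      have hcap := hn2 b hb
      have hc : 3 + (g - psum cap b) < n := by omega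
      refine ⟨nameOf n (4 * b + 3) (3 + (g - psum cap b)), fun _ => ?_⟩
      rw [nameOf_div hc, nameOf_mod hc]
      refine ⟨nameOf_lt (by omega) hc, corr_cell hb (by omega) (by omega), ?_⟩
      unfold gidx
      have : (4 * b + 3) / 4 = b := by omega
      rw [this]
      omega
    · exact ⟨0, fun h => absurd h hg⟩
  choose nm h using this
  exact ⟨nm, h⟩

theorem gidx_inj {r c r' c' : ℕ} (h : IsCorr Bn cap r c) (h' : IsCorr Bn cap r' c')
    (he : gidx cap r c = gidx cap r' c') : r = r' ∧ c = c' := by
  obtain ⟨h1, h2, h3, h4⟩ := h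
  obtain ⟨h1', h2', h3', h4'⟩ := h'
  unfold gidx at he
  have hb : r / 4 = r' / 4 := by
    apply split_unique (c := cap) (g := psum cap (r / 4) + (c - 3))
    · omega
    · rw [psum_succ]; omega
    · omega
    · rw [psum_succ]; omega
  have hr : r = r' := by omega
  subst hr
  exact ⟨rfl, by omega⟩

theorem gidx_lt {r c : ℕ} (h : IsCorr Bn cap r c) : gidx cap r c < psum cap Bn := by
  obtain ⟨h1, h2, h3, h4⟩ := h
  unfold gidx
  have := psum_mono cap (show r / 4 + 1 ≤ Bn by omega)
  rw [psum_succ] at this
  omega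

theorem packing_of_placement (hn1 : 4 * Bn + 3 ≤ n) (hn2 : ∀ b < Bn, cap b + 6 ≤ n)
    (hT : psum size K ≤ psum cap Bn) (hpos : ∀ u < K, 0 < size u)
    {pos : ℕ → ℤ × ℤ} (hp : IsPlacement n (Edge n Bn K cap size) pos) :
    ∃ f, IsPacking Bn K cap size f := by
  obtain ⟨hbox, hinj, hadj⟩ := hp
  -- the map on cells
  let φ : ℤ × ℤ → ℤ × ℤ := fun p => pos (nameOf n p.1.toNat p.2.toNat)
  have hfrlt : ∀ p, Fr n Bn cap p → p.1.toNat < n ∧ p.2.toNat < n := by
    rintro p ⟨h1, h2, h3, h4, -⟩
    omega
  obtain ⟨a, u, v, huv, haff⟩ := frame_rigid (φ := φ) hn1 hn2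
    (by
      intro p q hp hq hpq
      have hp' := hfrlt p hp
      have hq' := hfrlt q hq
      apply hadj _ (nameOf_lt hp'.1 hp'.2) _ (nameOf_lt hq'.1 hq'.2)
      left
      rw [nameOf_div hp'.2, nameOf_mod hp'.2, nameOf_div hq'.2, nameOf_mod hq'.2]
      refine ⟨hp.2.2.2.2, hq.2.2.2.2, ?_⟩
      unfold NAdj
      rw [nameOf_div hp'.2, nameOf_mod hp'.2, nameOf_div hq'.2, nameOf_mod hq'.2]
      rw [kadj_iff] at hpq
      obtain ⟨k1, k2, k3, k4, k5⟩ := hpq
      obtain ⟨p1, p2, p3, p4, -⟩ := hp
      obtain ⟨q1, q2, q3, q4, -⟩ := hq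
      refine ⟨?_, by omega, by omega, by omega, by omega⟩
      intro he
      have e1 := congrArg (· / n) he
      have e2 := congrArg (· % n) he
      rw [nameOf_div hp'.2, nameOf_div hq'.2] at e1
      rw [nameOf_mod hp'.2, nameOf_mod hq'.2] at e2
      omega)
    (by
      intro p q hp hq hpq
      have hp' := hfrlt p hp
      have hq' := hfrlt q hq
      have he := hinj _ (nameOf_lt hp'.1 hp'.2) _ (nameOf_lt hq'.1 hq'.2) hpq
      have e1 := congrArg (· / n) he
      have e2 := congrArg (· % n) he
      rw [nameOf_div hp'.2, nameOf_div hq'.2] at e1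
      rw [nameOf_mod hp'.2, nameOf_mod hq'.2] at e2
      obtain ⟨p1, p2, p3, p4, -⟩ := hp
      obtain ⟨q1, q2, q3, q4, -⟩ := hq
      ext <;> omega)
  -- corners
  have hbox' : ∀ p, Fr n Bn cap p → 0 ≤ (aff a u v p).1 ∧ (aff a u v p).1 ≤ n - 1 ∧
      0 ≤ (aff a u v p).2 ∧ (aff a u v p).2 ≤ n - 1 := by
    intro p hp
    rw [← haff p hp]
    have hp' := hfrlt p hp
    have := hbox _ (nameOf_lt hp'.1 hp'.2)
    change 0 ≤ (pos _).1 ∧ (pos _).1 ≤ n - 1 ∧ 0 ≤ (pos _).2 ∧ (pos _).2 ≤ n - 1
    omega
  have c00 := hbox' (0, 0) (fr_of (by simp) (by simp only []; omega) (by simp)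
    (by simp only []; omega) (by right; right; left; simp))
  have c10 := hbox' ((n : ℤ) - 1, 0) (fr_of (by simp only []; omega) (by simp only []; omega)
    (by simp) (by simp only []; omega) (by right; right; left; simp))
  have c01 := hbox' (0, (n : ℤ) - 1) (fr_of (by simp) (by simp only []; omega)
    (by simp only []; omega) (by simp only []; omega) (by left; norm_num))
  have c00' : 0 ≤ a.1 ∧ a.1 ≤ (n : ℤ) - 1 ∧ 0 ≤ a.2 ∧ a.2 ≤ (n : ℤ) - 1 := by
    simpa [aff] using c00
  -- corrected positions
  let pos' : ℕ → ℤ × ℤ := fun x => invAff a u v (pos x)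
  have hbox2 : ∀ x < n * n, 0 ≤ (pos' x).1 ∧ (pos' x).1 ≤ (n : ℤ) - 1 ∧ 0 ≤ (pos' x).2 ∧
      (pos' x).2 ≤ (n : ℤ) - 1 := by
    intro x hx
    have := hbox x hx
    exact invAff_box huv c00' c10 c01 (by omega)
  have hinj2 : ∀ x < n * n, ∀ y < n * n, pos' x = pos' y → x = y := by
    intro x hx y hy h
    apply hinj x hx y hy
    rw [← aff_invAff huv (pos x), ← aff_invAff huv (pos y)]
    exact congrArg _ h
  have hadj2 : ∀ x < n * n, ∀ y < n * n, Edge n Bn K cap size x y → KAdj (pos' x) (pos' y) :=
    fun x hx y hy h => kadj_invAff huv (hadj x hx y hy h)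
  have hframe : ∀ p, Fr n Bn cap p → pos' (nameOf n p.1.toNat p.2.toNat) = p := by
    intro p hp
    change invAff a u v (φ p) = p
    rw [haff p hp, invAff_aff huv]
  -- corridor letters are placed in corridors
  have hcorr : ∀ x < n * n, IsCorr Bn cap (x / n) (x % n) →
      IsCorr Bn cap (pos' x).1.toNat (pos' x).2.toNat := by
    intro x hx hc
    by_contra hcon
    have hb := hbox2 x hx
    have hfr : Fr n Bn cap (pos' x) := ⟨by omega, by omega, by omega, by omega, hcon⟩
    have h1 := hframe _ hfr
    have h2 := hfrlt _ hfr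
    have h3 := hinj2 _ (nameOf_lt h2.1 h2.2) x hx h1
    rw [← h3, nameOf_div h2.2, nameOf_mod h2.2] at hc
    exact hcon hc
  obtain ⟨nm, hnm⟩ := exists_name hn1 hn2
  -- rows are constant along items
  have hrow : ∀ w < K, ∀ t < size w, (pos' (nm (psum size w + t))).1 =
      (pos' (nm (psum size w))).1 := by
    intro w hw t
    induction t with
    | zero => intro _; simp
    | succ t ih =>
      intro ht
      have hle := psum_mono size (show w + 1 ≤ K by omega)
      rw [psum_succ] at hle
      obtain ⟨n1, n2, n3⟩ := hnm (psum size w + t) (by omega)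
      obtain ⟨m1, m2, m3⟩ := hnm (psum size w + (t + 1)) (by omega)
      rw [← ih (by omega)]
      have hk := hadj2 _ n1 _ m1 (Or.inr ⟨n2, m2, by rw [n3, m3]; ring,
        w, hw, by rw [n3]; omega, by rw [m3, psum_succ]; omega⟩)
      rw [kadj_iff] at hk
      have c1 := hcorr _ n1 n2
      have c2 := hcorr _ m1 m2
      have b1 := hbox2 _ n1
      have b2 := hbox2 _ m1
      have d1 := c1.1
      have d2 := c2.1
      omega
  refine ⟨fun w => (pos' (nm (psum size w))).1.toNat / 4, ?_, ?_⟩
  · intro w hw
    have hle := psum_mono size (show w + 1 ≤ K by omega)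
    rw [psum_succ] at hle
    have hs := hpos w hw
    obtain ⟨n1, n2, n3⟩ := hnm (psum size w) (by omega)
    exact (hcorr _ n1 n2).2.1
  · intro b hb
    rw [← Finset.card_range (cap b)]
    have hcard : ∑ w ∈ (Finset.range K).filter
        (fun w => (pos' (nm (psum size w))).1.toNat / 4 = b), size w =
        (((Finset.range K).filter
        (fun w => (pos' (nm (psum size w))).1.toNat / 4 = b)).sigma
          (fun w => Finset.range (size w))).card := by
      rw [Finset.card_sigma]
      simp
    rw [hcard]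
    apply Finset.card_le_card_of_injOn (fun s => (pos' (nm (psum size s.1 + s.2))).2.toNat - 3)
    · rintro ⟨w, t⟩ hs
      simp only [Finset.coe_sigma, Set.mem_sigma_iff, Finset.mem_coe, Finset.mem_filter,
        Finset.mem_range] at hs ⊢
      obtain ⟨⟨hw, hwb⟩, ht⟩ := hs
      have hle := psum_mono size (show w + 1 ≤ K by omega)
      rw [psum_succ] at hle
      obtain ⟨n1, n2, n3⟩ := hnm (psum size w + t) (by omega)
      have hc := hcorr _ n1 n2
      have hr := hrow w hw t ht
      obtain ⟨c1, c2, c3, c4⟩ := hc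
      rw [hr, hwb] at c4
      omega
    · rintro ⟨w, t⟩ hs ⟨w', t'⟩ hs' he
      simp only [Finset.coe_sigma, Set.mem_sigma_iff, Finset.mem_coe, Finset.mem_filter,
        Finset.mem_range] at hs hs' he
      obtain ⟨⟨hw, hwb⟩, ht⟩ := hs
      obtain ⟨⟨hw', hwb'⟩, ht'⟩ := hs'
      have hle := psum_mono size (show w + 1 ≤ K by omega)
      rw [psum_succ] at hle
      have hle' := psum_mono size (show w' + 1 ≤ K by omega)
      rw [psum_succ] at hle'
      obtain ⟨n1, n2, n3⟩ := hnm (psum size w + t) (by omega)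
      obtain ⟨m1, m2, m3⟩ := hnm (psum size w' + t') (by omega)
      have hc := hcorr _ n1 n2
      have hc' := hcorr _ m1 m2
      have hr := hrow w hw t ht
      have hr' := hrow w' hw' t' ht'
      have b1 := hbox2 _ n1
      have b2 := hbox2 _ m1
      obtain ⟨c1, c2, c3, c4⟩ := hc
      obtain ⟨c1', c2', c3', c4'⟩ := hc'
      have e1 : (pos' (nm (psum size w + t))).1 = (pos' (nm (psum size w' + t'))).1 := by
        rw [← hr] at hwb
        rw [← hr'] at hwb'
        omega
      have e2 : (pos' (nm (psum size w + t))).2 = (pos' (nm (psum size w' + t'))).2 := by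
        omega
      have e3 := hinj2 _ n1 _ m1 (Prod.ext e1 e2)
      have e4 : psum size w + t = psum size w' + t' := by
        rw [← n3, ← m3, e3]
      have e5 : w = w' := by
        apply split_unique (c := size) (g := psum size w + t)
        · omega
        · rw [psum_succ]; omega
        · omega
        · rw [psum_succ]; omega
      subst e5
      have : t = t' := by omega
      subst this
      rfl

/-- offset of an item inside its bin -/
def off (size f : ℕ → ℕ) (u : ℕ) : ℕ :=
  ∑ w ∈ (Finset.range u).filter (fun w => f w = f u), size w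

theorem off_add_le {f : ℕ → ℕ} {u w : ℕ} (h : u < w) (hf : f u = f w) :
    off size f u + size u ≤ off size f w := by
  unfold off
  have hnot : u ∉ (Finset.range u).filter (fun w => f w = f u) := by simp
  rw [add_comm, ← Finset.sum_insert (f := size) hnot]
  apply Finset.sum_le_sum_of_subset
  intro y hy
  simp only [Finset.mem_insert, Finset.mem_filter, Finset.mem_range] at hy ⊢
  rcases hy with rfl | ⟨h1, h2⟩
  · exact ⟨h, hf⟩
  · exact ⟨by omega, by rw [h2, hf]⟩

theorem off_le {f : ℕ → ℕ} (hf : IsPacking Bn K cap size f) {u : ℕ} (hu : u < K) :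
    off size f u + size u ≤ cap (f u) := by
  refine le_trans ?_ (hf.2 (f u) (hf.1 u hu))
  unfold off
  have hnot : u ∉ (Finset.range u).filter (fun w => f w = f u) := by simp
  rw [add_comm, ← Finset.sum_insert (f := size) hnot]
  apply Finset.sum_le_sum_of_subset
  intro y hy
  simp only [Finset.mem_insert, Finset.mem_filter, Finset.mem_range] at hy ⊢
  rcases hy with rfl | ⟨h1, h2⟩
  · exact ⟨hu, rfl⟩
  · exact ⟨by omega, h2⟩

theorem placement_of_packing (hn1 : 4 * Bn + 3 ≤ n) (hn2 : ∀ b < Bn, cap b + 6 ≤ n)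
    (hT : psum size K ≤ psum cap Bn) {f : ℕ → ℕ} (hf : IsPacking Bn K cap size f) :
    ∃ pos, IsPlacement n (Edge n Bn K cap size) pos := by
  classical
  -- the item containing an index
  have hitem : ∀ g, ∃ u, g < psum size K → u < K ∧ psum size u ≤ g ∧ g < psum size (u + 1) := by
    intro g
    by_cases hg : g < psum size K
    · obtain ⟨u, h1, h2, h3⟩ := exists_split hg
      exact ⟨u, fun _ => ⟨h1, h2, h3⟩⟩
    · exact ⟨0, fun h => absurd h hg⟩
  choose it hit using hitem
  -- the prescribed positions
  let gx : ℕ → ℕ := fun x => gidx cap (x / n) (x % n)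
  let q : ℕ → ℕ × ℕ := fun x =>
    if IsCorr Bn cap (x / n) (x % n) then
      (4 * f (it (gx x)) + 3, 3 + (off size f (it (gx x)) + (gx x - psum size (it (gx x)))))
    else (x / n, x % n)
  let s : Finset (Fin (n * n)) := Finset.univ.filter fun x =>
    ¬ IsCorr Bn cap (x.1 / n) (x.1 % n) ∨ gx x.1 < psum size K
  have hq1 : ∀ x, ¬ IsCorr Bn cap (x / n) (x % n) → q x = (x / n, x % n) :=
    fun x hx => if_neg hx
  have hq2 : ∀ x, IsCorr Bn cap (x / n) (x % n) → q x =
      (4 * f (it (gx x)) + 3, 3 + (off size f (it (gx x)) + (gx x - psum size (it (gx x))))) :=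
    fun x hx => if_pos hx
  -- properties of the positions of item letters
  have hq3 : ∀ x, IsCorr Bn cap (x / n) (x % n) → gx x < psum size K →
      IsCorr Bn cap (q x).1 (q x).2 := by
    intro x hx hg
    obtain ⟨h1, h2, h3⟩ := hit _ hg
    rw [psum_succ] at h3
    have := off_le hf h1
    rw [hq2 x hx]
    exact corr_cell (hf.1 _ h1) (by omega) (by simp only []; omega)
  have himg : s.image (fun x => q x.1) ⊆ Finset.range n ×ˢ Finset.range n := by
    intro c hc
    simp only [Finset.mem_image, s, Finset.mem_filter, Finset.mem_univ, true_and] at hc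
    obtain ⟨x, hx, rfl⟩ := hc
    rw [Finset.mem_product, Finset.mem_range, Finset.mem_range]
    by_cases hcr : IsCorr Bn cap (x.1 / n) (x.1 % n)
    · have hg : gx x.1 < psum size K := by
        rcases hx with hx | hx
        · exact absurd hcr hx
        · exact hx
      obtain ⟨c1, c2, c3, c4⟩ := hq3 _ hcr hg
      have := hn2 _ c2
      omega
    · rw [hq1 _ hcr]
      have hn : 0 < n := by omega
      refine ⟨?_, Nat.mod_lt _ hn⟩
      exact Nat.div_lt_of_lt_mul x.2
  have hinj : Set.InjOn (fun x : Fin (n * n) => q x.1) s := by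
    intro x hx y hy he
    simp only [s, Finset.coe_filter, Finset.mem_univ, true_and, Set.mem_setOf_eq] at hx hy
    simp only [] at he
    apply Fin.ext
    by_cases hcx : IsCorr Bn cap (x.1 / n) (x.1 % n)
    · have hgx : gx x.1 < psum size K := by
        rcases hx with hx | hx
        · exact absurd hcx hx
        · exact hx
      by_cases hcy : IsCorr Bn cap (y.1 / n) (y.1 % n)
      · have hgy : gx y.1 < psum size K := by
          rcases hy with hy | hy
          · exact absurd hcy hy
          · exact hy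
        obtain ⟨h1, h2, h3⟩ := hit _ hgx
        obtain ⟨h1', h2', h3'⟩ := hit _ hgy
        rw [psum_succ] at h3 h3'
        rw [hq2 _ hcx, hq2 _ hcy, Prod.mk.injEq] at he
        obtain ⟨e1, e2⟩ := he
        have e3 : it (gx x.1) = it (gx y.1) := by
          rcases lt_trichotomy (it (gx x.1)) (it (gx y.1)) with h | h | h
          · have := off_add_le (size := size) h (show f _ = f _ by omega)
            omega
          · exact h
          · have := off_add_le (size := size) h (show f _ = f _ by omega)
            omega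
        have e4 : gx x.1 = gx y.1 := by
          rw [← e3] at h2' h3' e2
          omega
        obtain ⟨e5, e6⟩ := gidx_inj hcx hcy e4
        rw [← nameOf_div_mod (n := n) x.1, ← nameOf_div_mod (n := n) y.1, e5, e6]
      · exfalso
        have := hq3 _ hcx hgx
        rw [he, hq1 _ hcy] at this
        exact hcy this
    · by_cases hcy : IsCorr Bn cap (y.1 / n) (y.1 % n)
      · have hgy : gx y.1 < psum size K := by
          rcases hy with hy | hy
          · exact absurd hcy hy
          · exact hy
        exfalso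
        have := hq3 _ hcy hgy
        rw [← he, hq1 _ hcx] at this
        exact hcx this
      · rw [hq1 _ hcx, hq1 _ hcy, Prod.mk.injEq] at he
        rw [← nameOf_div_mod (n := n) x.1, ← nameOf_div_mod (n := n) y.1, he.1, he.2]
  have hcard : Fintype.card (Fin (n * n)) = (Finset.range n ×ˢ Finset.range n).card := by
    simp
  obtain ⟨e, he⟩ := Finset.exists_equiv_extend_of_card_eq hcard himg hinj
  let P : ℕ → ℕ × ℕ := fun x => if h : x < n * n then (e ⟨x, h⟩ : ℕ × ℕ) else (0, 0)
  have hP1 : ∀ x < n * n, (P x).1 < n ∧ (P x).2 < n := by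
    intro x hx
    simp only [P, dif_pos hx]
    have := (e ⟨x, hx⟩).2
    rw [Finset.mem_product, Finset.mem_range, Finset.mem_range] at this
    exact this
  have hP2 : ∀ x < n * n, ∀ y < n * n, P x = P y → x = y := by
    intro x hx y hy h
    simp only [P, dif_pos hx, dif_pos hy] at h
    have := e.injective (Subtype.ext h)
    exact congrArg Fin.val this
  have hP3 : ∀ x < n * n, (¬ IsCorr Bn cap (x / n) (x % n) ∨ gx x < psum size K) → P x = q x := by
    intro x hx h
    simp only [P, dif_pos hx]
    apply he ⟨x, hx⟩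
    simp only [s, Finset.mem_filter, Finset.mem_univ, true_and]
    exact h
  refine ⟨fun x => ((P x).1, (P x).2), ?_, ?_, ?_⟩
  · intro x hx
    have := hP1 x hx
    simp only []
    omega
  · intro x hx y hy h
    apply hP2 x hx y hy
    simp only [Prod.mk.injEq, Nat.cast_inj] at h
    exact Prod.ext h.1 h.2
  · intro x hx y hy h
    rw [kadj_iff]
    simp only []
    have hne : x ≠ y := by
      rcases h with ⟨-, -, h, -⟩ | ⟨-, -, h, -⟩
      · exact h
      · rintro rfl
        omega
    have hne2 : P x ≠ P y := fun h => hne (hP2 x hx y hy h)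
    rw [Ne, Prod.ext_iff] at hne2
    rcases h with ⟨h1, h2, h3, h4, h5, h6, h7⟩ | ⟨h1, h2, h3, w, hw, h4, h5⟩
    · rw [hP3 x hx (Or.inl h1), hP3 y hy (Or.inl h2), hq1 x h1, hq1 y h2] at hne2 ⊢
      simp only [] at hne2 ⊢
      omega
    · have hmono := psum_mono size (show w + 1 ≤ K by omega)
      have hgx : gx x < psum size K := by
        change gidx cap (x / n) (x % n) < _
        omega
      have hgy : gx y < psum size K := by
        change gidx cap (y / n) (y % n) < _
        omega
      rw [hP3 x hx (Or.inr hgx), hP3 y hy (Or.inr hgy), hq2 x h1, hq2 y h2] at hne2 ⊢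
      obtain ⟨k1, k2, k3⟩ := hit _ hgx
      obtain ⟨k1', k2', k3'⟩ := hit _ hgy
      have hg1 : gx y = gx x + 1 := h3
      have i1 : it (gx x) = w := split_unique k2 k3 h4 (by
        change gx x < _
        have : gx y < psum size (w + 1) := h5
        omega)
      have i2 : it (gx y) = w := split_unique k2' k3' (by
        have : psum size w ≤ gx x := h4
        omega) h5
      rw [i1] at k2 k3
      rw [i2] at k2' k3'
      rw [i1, i2] at hne2 ⊢
      simp only [] at hne2 ⊢
      omega

end Pool.Agent.Helper88.Boggle
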