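import Mathlib

set_option autoImplicit false

namespace Pool.Agent.Helper88.Boggle

/-- king adjacency on the integer grid -/
def KAdj (p q : ℤ × ℤ) : Prop :=
  p ≠ q ∧ |p.1 - q.1| ≤ 1 ∧ |p.2 - q.2| ≤ 1

theorem KAdj.symm {p q : ℤ × ℤ} (h : KAdj p q) : KAdj q p := by
  refine ⟨h.1.symm, ?_, ?_⟩
  · rw [abs_sub_comm]; exact h.2.1
  · rw [abs_sub_comm]; exact h.2.2

/-- the four unit vectors -/
def IsUnit4 (u : ℤ × ℤ) : Prop :=
  u = (1, 0) ∨ u = (-1, 0) ∨ u = (0, 1) ∨ u = (0, -1)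

/-- perpendicular pair of unit vectors -/
def Perp (u v : ℤ × ℤ) : Prop :=
  (u = (1, 0) ∨ u = (-1, 0)) ∧ (v = (0, 1) ∨ v = (0, -1)) ∨
  (u = (0, 1) ∨ u = (0, -1)) ∧ (v = (1, 0) ∨ v = (-1, 0))

theorem kadj_iff (p q : ℤ × ℤ) : KAdj p q ↔
    (¬ (p.1 = q.1 ∧ p.2 = q.2)) ∧ -1 ≤ p.1 - q.1 ∧ p.1 - q.1 ≤ 1 ∧ -1 ≤ p.2 - q.2 ∧ p.2 - q.2 ≤ 1 := by
  unfold KAdj
  rw [abs_le, abs_le, Ne, Prod.ext_iff]
  tauto

theorem common_diag {p1 p2 q1 q2 a1 a2 : ℤ} (h1 : q1 - p1 = 1 ∨ q1 - p1 = -1)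
    (h2 : q2 - p2 = 1 ∨ q2 - p2 = -1) (hpa : KAdj (p1, p2) (a1, a2)) (hqa : KAdj (q1, q2) (a1, a2)) :
    (a1, a2) = (p1, q2) ∨ (a1, a2) = (q1, p2) := by
  rw [kadj_iff] at hpa hqa
  obtain ⟨ha, ha1, ha2, ha3, ha4⟩ := hpa
  obtain ⟨hb, hb1, hb2, hb3, hb4⟩ := hqa
  simp only [] at *
  have e1 : a1 = p1 ∨ a1 = q1 := by clear ha hb ha3 ha4 hb3 hb4 h2; omega
  have e2 : a2 = p2 ∨ a2 = q2 := by clear ha hb ha1 ha2 hb1 hb2 h1 e1; omega
  rcases e1 with e1 | e1 <;> rcases e2 with e2 | e2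
  · exact absurd ⟨e1.symm, e2.symm⟩ ha
  · left; rw [e1, e2]
  · right; rw [e1, e2]
  · exact absurd ⟨e1.symm, e2.symm⟩ hb

/-- Two adjacent cells with three distinct common neighbours are orthogonally adjacent. -/
theorem orth_of_common {p q a b c : ℤ × ℤ} (hpq : KAdj p q)
    (hpa : KAdj p a) (hqa : KAdj q a) (hpb : KAdj p b) (hqb : KAdj q b)
    (hpc : KAdj p c) (hqc : KAdj q c) (hab : a ≠ b) (hac : a ≠ c) (hbc : b ≠ c) :
    IsUnit4 (q - p) := by
  obtain ⟨p1, p2⟩ := p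
  obtain ⟨q1, q2⟩ := q
  obtain ⟨a1, a2⟩ := a
  obtain ⟨b1, b2⟩ := b
  obtain ⟨c1, c2⟩ := c
  rw [kadj_iff] at hpq
  simp only [IsUnit4, Prod.mk_sub_mk, Prod.mk.injEq] at *
  obtain ⟨h0, h1, h2, h3, h4⟩ := hpq
  by_cases d1 : q1 - p1 = 0
  · omega
  by_cases d2 : q2 - p2 = 0
  · omega
  exfalso
  have e1 : q1 - p1 = 1 ∨ q1 - p1 = -1 := by omega
  have e2 : q2 - p2 = 1 ∨ q2 - p2 = -1 := by omega
  have ha := common_diag e1 e2 hpa hqa
  have hb := common_diag e1 e2 hpb hqb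
  have hc := common_diag e1 e2 hpc hqc
  simp only [Prod.mk.injEq] at ha hb hc
  rcases ha with ha | ha <;> rcases hb with hb | hb
  · exact hab (by rw [ha.1, ha.2, hb.1, hb.2])
  · rcases hc with hc | hc
    · exact hac (by rw [ha.1, ha.2, hc.1, hc.2])
    · exact hbc (by rw [hb.1, hb.2, hc.1, hc.2])
  · rcases hc with hc | hc
    · exact hbc (by rw [hb.1, hb.2, hc.1, hc.2])
    · exact hac (by rw [ha.1, ha.2, hc.1, hc.2])
  · exact hab (by rw [ha.1, ha.2, hb.1, hb.2])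

/-- the 3 x 3 window around `z` -/
def InW (z p : ℤ × ℤ) : Prop := |p.1 - z.1| ≤ 1 ∧ |p.2 - z.2| ≤ 1

/-- affine map with origin `a`, linear part given by the images `u`, `v` of the basis -/
def aff (a u v p : ℤ × ℤ) : ℤ × ℤ := (a.1 + p.1 * u.1 + p.2 * v.1, a.2 + p.1 * u.2 + p.2 * v.2)

theorem unit_perp_of_kadj {u v : ℤ × ℤ} (hu : IsUnit4 u) (hv : IsUnit4 v) (h : KAdj u v) :
    Perp u v := by
  rcases hu with rfl | rfl | rfl | rfl <;> rcases hv with rfl | rfl | rfl | rfl <;>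
    simp [KAdj, Perp] at h ⊢

theorem perp_neg {u u' v : ℤ × ℤ} (h1 : Perp u v) (h2 : Perp u' v) (hne : u ≠ u') : u' = -u := by
  unfold Perp at h1 h2
  rcases h1 with ⟨h1 | h1, h3 | h3⟩ | ⟨h1 | h1, h3 | h3⟩ <;>
    rcases h2 with ⟨h2 | h2, h4 | h4⟩ | ⟨h2 | h2, h4 | h4⟩ <;>
    subst h1 <;> subst h2 <;> simp_all

theorem Perp.symm {u v : ℤ × ℤ} (h : Perp u v) : Perp v u := by
  unfold Perp at *
  tauto

/-- a cell adjacent to `0`, `u`, `v` and different from `-u`, `-v` is `u + v`. -/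
theorem corner_eq {u v w : ℤ × ℤ} (h : Perp u v) (h0 : KAdj 0 w) (hu : KAdj u w) (hv : KAdj v w) :
    w = u + v := by
  rw [kadj_iff] at h0 hu hv
  obtain ⟨w1, w2⟩ := w
  unfold Perp at h
  rcases h with ⟨h1 | h1, h3 | h3⟩ | ⟨h1 | h1, h3 | h3⟩ <;> subst h1 <;> subst h3 <;>
    simp only [Prod.mk_add_mk, Prod.mk.injEq, Prod.fst_zero, Prod.snd_zero] at * <;> omega

theorem mk_kadj {p q : ℤ × ℤ} (h : ¬ (p.1 = q.1 ∧ p.2 = q.2)) (h1 : -1 ≤ p.1 - q.1)
    (h2 : p.1 - q.1 ≤ 1) (h3 : -1 ≤ p.2 - q.2) (h4 : p.2 - q.2 ≤ 1) : KAdj p q :=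
  (kadj_iff p q).2 ⟨h, h1, h2, h3, h4⟩

theorem KAdj.sub {p q r : ℤ × ℤ} (h : KAdj p q) : KAdj (p - r) (q - r) := by
  rw [kadj_iff] at *
  simp only [Prod.fst_sub, Prod.snd_sub]
  omega

theorem perp_neg_right {u v : ℤ × ℤ} (h : Perp u v) : Perp u (-v) := by
  unfold Perp at *
  rcases h with ⟨h1, h3 | h3⟩ | ⟨h1, h3 | h3⟩ <;> subst h3 <;> simp_all

theorem perp_neg_left {u v : ℤ × ℤ} (h : Perp u v) : Perp (-u) v :=
  (perp_neg_right h.symm).symm

/-- Local rigidity: an injective adjacency preserving map on a 3 x 3 window is an isometry. -/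
theorem window_rigid {φ : ℤ × ℤ → ℤ × ℤ} {z : ℤ × ℤ}
    (hadj : ∀ p q, InW z p → InW z q → KAdj p q → KAdj (φ p) (φ q))
    (hinj : ∀ p q, InW z p → InW z q → φ p = φ q → p = q) :
    ∃ u v, Perp u v ∧ ∀ a b : ℤ, |a| ≤ 1 → |b| ≤ 1 →
      φ (z.1 + a, z.2 + b) = φ z + (a * u.1 + b * v.1, a * u.2 + b * v.2) := by
  obtain ⟨z1, z2⟩ := z
  have W : ∀ a b : ℤ, |a| ≤ 1 → |b| ≤ 1 → InW (z1, z2) (z1 + a, z2 + b) := by
    intro a b ha hb
    simp only [InW]
    constructor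
    · simpa using ha
    · simpa using hb
  -- adjacency in the window
  have A : ∀ a b c d : ℤ, |a| ≤ 1 → |b| ≤ 1 → |c| ≤ 1 → |d| ≤ 1 → ¬ (a = c ∧ b = d) →
      |a - c| ≤ 1 → |b - d| ≤ 1 → KAdj (φ (z1 + a, z2 + b)) (φ (z1 + c, z2 + d)) := by
    intro a b c d ha hb hc hd h1 h2 h3
    apply hadj _ _ (W a b ha hb) (W c d hc hd)
    rw [abs_le] at h2 h3
    apply mk_kadj <;> simp only [] <;> omega
  -- distinctness
  have D : ∀ a b c d : ℤ, |a| ≤ 1 → |b| ≤ 1 → |c| ≤ 1 → |d| ≤ 1 → ¬ (a = c ∧ b = d) →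
      φ (z1 + a, z2 + b) ≠ φ (z1 + c, z2 + d) := by
    intro a b c d ha hb hc hd h1 h2
    have := hinj _ _ (W a b ha hb) (W c d hc hd) h2
    rw [Prod.ext_iff] at this
    simp only [] at this
    omega
  set P : ℤ → ℤ → ℤ × ℤ := fun a b => φ (z1 + a, z2 + b) with hP
  have hz : φ (z1, z2) = P 0 0 := by simp [hP]
  have A' : ∀ a b c d : ℤ, |a| ≤ 1 → |b| ≤ 1 → |c| ≤ 1 → |d| ≤ 1 → ¬ (a = c ∧ b = d) →
      |a - c| ≤ 1 → |b - d| ≤ 1 → KAdj (P a b) (P c d) := A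
  have D' : ∀ a b c d : ℤ, |a| ≤ 1 → |b| ≤ 1 → |c| ≤ 1 → |d| ≤ 1 → ¬ (a = c ∧ b = d) →
      P a b ≠ P c d := D
  have U1 : IsUnit4 (P 1 0 - P 0 0) :=
    orth_of_common (a := P 0 1) (b := P 0 (-1)) (c := P 1 1)
      (by apply A' <;> norm_num) (by apply A' <;> norm_num) (by apply A' <;> norm_num)
      (by apply A' <;> norm_num) (by apply A' <;> norm_num) (by apply A' <;> norm_num)
      (by apply A' <;> norm_num) (by apply D' <;> norm_num) (by apply D' <;> norm_num)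
      (by apply D' <;> norm_num)
  have U2 : IsUnit4 (P (-1) 0 - P 0 0) :=
    orth_of_common (a := P 0 1) (b := P 0 (-1)) (c := P (-1) 1)
      (by apply A' <;> norm_num) (by apply A' <;> norm_num) (by apply A' <;> norm_num)
      (by apply A' <;> norm_num) (by apply A' <;> norm_num) (by apply A' <;> norm_num)
      (by apply A' <;> norm_num) (by apply D' <;> norm_num) (by apply D' <;> norm_num)
      (by apply D' <;> norm_num)
  have U3 : IsUnit4 (P 0 1 - P 0 0) :=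
    orth_of_common (a := P 1 0) (b := P (-1) 0) (c := P 1 1)
      (by apply A' <;> norm_num) (by apply A' <;> norm_num) (by apply A' <;> norm_num)
      (by apply A' <;> norm_num) (by apply A' <;> norm_num) (by apply A' <;> norm_num)
      (by apply A' <;> norm_num) (by apply D' <;> norm_num) (by apply D' <;> norm_num)
      (by apply D' <;> norm_num)
  have U4 : IsUnit4 (P 0 (-1) - P 0 0) :=
    orth_of_common (a := P 1 0) (b := P (-1) 0) (c := P 1 (-1))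
      (by apply A' <;> norm_num) (by apply A' <;> norm_num) (by apply A' <;> norm_num)
      (by apply A' <;> norm_num) (by apply A' <;> norm_num) (by apply A' <;> norm_num)
      (by apply A' <;> norm_num) (by apply D' <;> norm_num) (by apply D' <;> norm_num)
      (by apply D' <;> norm_num)
  have P13 : Perp (P 1 0 - P 0 0) (P 0 1 - P 0 0) :=
    unit_perp_of_kadj U1 U3 (KAdj.sub (by apply A' <;> norm_num))
  have P23 : Perp (P (-1) 0 - P 0 0) (P 0 1 - P 0 0) :=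
    unit_perp_of_kadj U2 U3 (KAdj.sub (by apply A' <;> norm_num))
  have P14 : Perp (P 1 0 - P 0 0) (P 0 (-1) - P 0 0) :=
    unit_perp_of_kadj U1 U4 (KAdj.sub (by apply A' <;> norm_num))
  have N2 : P (-1) 0 - P 0 0 = -(P 1 0 - P 0 0) := by
    apply perp_neg P13 P23
    intro h
    exact D' 1 0 (-1) 0 (by norm_num) (by norm_num) (by norm_num) (by norm_num) (by norm_num)
      (sub_left_injective h)
  have N4 : P 0 (-1) - P 0 0 = -(P 0 1 - P 0 0) := by
    apply perp_neg P13.symm P14.symm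
    intro h
    exact D' 0 1 0 (-1) (by norm_num) (by norm_num) (by norm_num) (by norm_num) (by norm_num)
      (sub_left_injective h)
  have K0 : ∀ a b : ℤ, |a| ≤ 1 → |b| ≤ 1 → ¬ (a = 0 ∧ b = 0) → KAdj 0 (P a b - P 0 0) := by
    intro a b ha hb hab
    have := KAdj.sub (r := P 0 0) (A' 0 0 a b (by norm_num) (by norm_num) ha hb
      (by intro h; exact hab ⟨h.1.symm, h.2.symm⟩) (by simpa using ha) (by simpa using hb))
    simpa using this
  set u := P 1 0 - P 0 0 with hu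
  set v := P 0 1 - P 0 0 with hv
  have C11 : P 1 1 - P 0 0 = u + v :=
    corner_eq P13 (by apply K0 <;> norm_num) (KAdj.sub (by apply A' <;> norm_num))
      (KAdj.sub (by apply A' <;> norm_num))
  have C12 : P 1 (-1) - P 0 0 = u + -v := by
    apply corner_eq (perp_neg_right P13) (by apply K0 <;> norm_num)
      (KAdj.sub (by apply A' <;> norm_num))
    rw [← N4]
    exact (KAdj.sub (by apply A' <;> norm_num))
  have C21 : P (-1) 1 - P 0 0 = -u + v := by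
    apply corner_eq (perp_neg_left P13) (by apply K0 <;> norm_num)
    · rw [← N2]
      exact (KAdj.sub (by apply A' <;> norm_num))
    · exact (KAdj.sub (by apply A' <;> norm_num))
  have C22 : P (-1) (-1) - P 0 0 = -u + -v := by
    apply corner_eq (perp_neg_right (perp_neg_left P13)) (by apply K0 <;> norm_num)
    · rw [← N2]
      exact (KAdj.sub (by apply A' <;> norm_num))
    · rw [← N4]
      exact (KAdj.sub (by apply A' <;> norm_num))
  refine ⟨u, v, P13, ?_⟩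
  intro a b ha hb
  change P a b = _
  rw [hz, ← sub_eq_iff_eq_add']
  rw [abs_le] at ha hb
  have ha' : a = -1 ∨ a = 0 ∨ a = 1 := by omega
  have hb' : b = -1 ∨ b = 0 ∨ b = 1 := by omega
  rcases ha' with rfl | rfl | rfl <;> rcases hb' with rfl | rfl | rfl
  · rw [C22]; ext <;> simp
  · rw [N2]; ext <;> simp
  · rw [C21]; ext <;> simp
  · rw [N4]; ext <;> simp
  · ext <;> simp
  · rw [← hv]; ext <;> simp
  · rw [C12]; ext <;> simp
  · rw [← hu]; ext <;> simp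
  · rw [C11]; ext <;> simp

/-- `φ` agrees with the affine isometry `aff a u v` on the window around `z`. -/
def Good (φ : ℤ × ℤ → ℤ × ℤ) (a u v z : ℤ × ℤ) : Prop :=
  ∀ p, InW z p → φ p = aff a u v p

theorem good_of_window {φ : ℤ × ℤ → ℤ × ℤ} {z u v a : ℤ × ℤ}
    (h : ∀ c d : ℤ, |c| ≤ 1 → |d| ≤ 1 →
      φ (z.1 + c, z.2 + d) = φ z + (c * u.1 + d * v.1, c * u.2 + d * v.2))
    (hz : φ z = aff a u v z) : Good φ a u v z := by
  intro p hp
  have := h (p.1 - z.1) (p.2 - z.2) hp.1 hp.2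
  have e : (z.1 + (p.1 - z.1), z.2 + (p.2 - z.2)) = p := by ext <;> simp
  rw [e] at this
  rw [this, hz]
  ext <;> simp only [aff, Prod.fst_add, Prod.snd_add] <;> ring

theorem inW_mk {z1 z2 c d : ℤ} (hc : |c| ≤ 1) (hd : |d| ≤ 1) : InW (z1, z2) (z1 + c, z2 + d) := by
  simp only [InW]
  constructor
  · simpa using hc
  · simpa using hd

theorem aff_sub (a u v p q : ℤ × ℤ) : aff a u v p - aff a u v q =
    ((p.1 - q.1) * u.1 + (p.2 - q.2) * v.1, (p.1 - q.1) * u.2 + (p.2 - q.2) * v.2) := by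
  ext <;> simp only [aff, Prod.fst_sub, Prod.snd_sub] <;> ring

/-- One step of propagation. -/
theorem good_step {φ : ℤ × ℤ → ℤ × ℤ} {Fr : ℤ × ℤ → Prop}
    (hadj : ∀ p q, Fr p → Fr q → KAdj p q → KAdj (φ p) (φ q))
    (hinj : ∀ p q, Fr p → Fr q → φ p = φ q → p = q)
    {a u v z z' : ℤ × ℤ} (hg : Good φ a u v z) (hfull : ∀ p, InW z' p → Fr p)
    (hd : IsUnit4 (z' - z)) : Good φ a u v z' := by
  obtain ⟨u', v', -, h⟩ := window_rigid (φ := φ) (z := z')
    (fun p q hp hq => hadj p q (hfull p hp) (hfull q hq))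
    (fun p q hp hq => hinj p q (hfull p hp) (hfull q hq))
  obtain ⟨z1, z2⟩ := z
  obtain ⟨w1, w2⟩ := z'
  have e0 : φ (w1, w2) = aff a u v (w1, w2) := by
    apply hg
    simp only [IsUnit4, Prod.mk_sub_mk, Prod.mk.injEq] at hd
    simp only [InW, abs_le]
    omega
  -- difference formula inside the old window
  have key : ∀ c d : ℤ, |c| ≤ 1 → |d| ≤ 1 → InW (z1, z2) (w1 + c, w2 + d) →
      (c * u'.1 + d * v'.1, c * u'.2 + d * v'.2) = (c * u.1 + d * v.1, c * u.2 + d * v.2) := by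
    intro c d hc hd h1
    have h2 := h c d hc hd
    have h3 := hg _ h1
    simp only [] at h2
    rw [h3, e0] at h2
    have h4 := sub_eq_iff_eq_add'.2 h2
    rw [aff_sub] at h4
    rw [← h4]
    ext <;> simp
  have huv : u' = u ∧ v' = v := by
    simp only [IsUnit4, Prod.mk_sub_mk, Prod.mk.injEq] at hd
    rcases hd with ⟨h1, h2⟩ | ⟨h1, h2⟩ | ⟨h1, h2⟩ | ⟨h1, h2⟩
    · have k1 := key (-1) 0 (by norm_num) (by norm_num) (by simp only [InW, abs_le]; omega)
      have k2 := key 0 1 (by norm_num) (by norm_num) (by simp only [InW, abs_le]; omega)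
      simp [Prod.ext_iff] at k1 k2 ⊢
      tauto
    · have k1 := key 1 0 (by norm_num) (by norm_num) (by simp only [InW, abs_le]; omega)
      have k2 := key 0 1 (by norm_num) (by norm_num) (by simp only [InW, abs_le]; omega)
      simp [Prod.ext_iff] at k1 k2 ⊢
      tauto
    · have k1 := key 1 0 (by norm_num) (by norm_num) (by simp only [InW, abs_le]; omega)
      have k2 := key 0 (-1) (by norm_num) (by norm_num) (by simp only [InW, abs_le]; omega)
      simp [Prod.ext_iff] at k1 k2 ⊢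
      tauto
    · have k1 := key 1 0 (by norm_num) (by norm_num) (by simp only [InW, abs_le]; omega)
      have k2 := key 0 1 (by norm_num) (by norm_num) (by simp only [InW, abs_le]; omega)
      simp [Prod.ext_iff] at k1 k2 ⊢
      tauto
  obtain ⟨rfl, rfl⟩ := huv
  exact good_of_window h e0

/-- Horizontal propagation. -/
theorem good_row {φ : ℤ × ℤ → ℤ × ℤ} {Fr : ℤ × ℤ → Prop}
    (hadj : ∀ p q, Fr p → Fr q → KAdj p q → KAdj (φ p) (φ q))
    (hinj : ∀ p q, Fr p → Fr q → φ p = φ q → p = q)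
    {a u v : ℤ × ℤ} {r c0 : ℤ} (hg : Good φ a u v (r, c0)) (k : ℕ)
    (hfull : ∀ c, c0 ≤ c → c ≤ c0 + k → ∀ p, InW (r, c) p → Fr p) :
    Good φ a u v (r, c0 + k) := by
  induction k with
  | zero => simpa using hg
  | succ k ih =>
    have h1 := ih (fun c h1 h2 => hfull c h1 (by push_cast; omega))
    apply good_step hadj hinj h1
    · apply hfull <;> push_cast <;> omega
    · right; right; left
      ext <;> simp

/-- Vertical propagation. -/
theorem good_col {φ : ℤ × ℤ → ℤ × ℤ} {Fr : ℤ × ℤ → Prop}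
    (hadj : ∀ p q, Fr p → Fr q → KAdj p q → KAdj (φ p) (φ q))
    (hinj : ∀ p q, Fr p → Fr q → φ p = φ q → p = q)
    {a u v : ℤ × ℤ} {r0 c : ℤ} (hg : Good φ a u v (r0, c)) (k : ℕ)
    (hfull : ∀ r, r0 ≤ r → r ≤ r0 + k → ∀ p, InW (r, c) p → Fr p) :
    Good φ a u v (r0 + k, c) := by
  induction k with
  | zero => simpa using hg
  | succ k ih =>
    have h1 := ih (fun c h1 h2 => hfull c h1 (by push_cast; omega))
    apply good_step hadj hinj h1
    · apply hfull <;> push_cast <;> omega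
    · left
      ext <;> simp

/-! ### Partial sums -/

/-- partial sums -/
def psum (c : ℕ → ℕ) (b : ℕ) : ℕ := ∑ i ∈ Finset.range b, c i

theorem psum_succ (c : ℕ → ℕ) (b : ℕ) : psum c (b + 1) = psum c b + c b := by
  simp [psum, Finset.sum_range_succ]

theorem psum_mono (c : ℕ → ℕ) {a b : ℕ} (h : a ≤ b) : psum c a ≤ psum c b := by
  induction b, h using Nat.le_induction with
  | base => exact le_rfl
  | succ b _ ih => rw [psum_succ]; omega

theorem exists_split {c : ℕ → ℕ} {B g : ℕ} (h : g < psum c B) :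
    ∃ b < B, psum c b ≤ g ∧ g < psum c (b + 1) := by
  induction B with
  | zero => simp [psum] at h
  | succ B ih =>
    by_cases hg : g < psum c B
    · obtain ⟨b, hb, h1⟩ := ih hg
      exact ⟨b, by omega, h1⟩
    · exact ⟨B, by omega, by omega, h⟩

theorem split_unique {c : ℕ → ℕ} {b b' g : ℕ} (h1 : psum c b ≤ g) (h2 : g < psum c (b + 1))
    (h3 : psum c b' ≤ g) (h4 : g < psum c (b' + 1)) : b = b' := by
  rcases lt_trichotomy b b' with h | h | h
  · have := psum_mono c (show b + 1 ≤ b' by omega)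
    omega
  · exact h
  · have := psum_mono c (show b' + 1 ≤ b by omega)
    omega

/-! ### The frame with corridors -/

/-- Cell `(r, c)` lies in one of the `Bn` corridors; corridor `b` is the horizontal segment of
length `cap b` in row `4 b + 3` starting at column `3`. -/
def IsCorr (Bn : ℕ) (cap : ℕ → ℕ) (r c : ℕ) : Prop :=
  r % 4 = 3 ∧ r / 4 < Bn ∧ 3 ≤ c ∧ c < 3 + cap (r / 4)

/-- The number of a corridor cell in the enumeration of all corridor cells. -/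
def gidx (cap : ℕ → ℕ) (r c : ℕ) : ℕ := psum cap (r / 4) + (c - 3)

/-- King adjacency of the reference cells of two letters. -/
def NAdj (n x y : ℕ) : Prop :=
  x ≠ y ∧ x / n ≤ y / n + 1 ∧ y / n ≤ x / n + 1 ∧ x % n ≤ y % n + 1 ∧ y % n ≤ x % n + 1

/-- The adjacency graph of the puzzle (letters are `0, ..., n * n - 1`; the reference cell of the
letter `x` is `(x / n, x % n)`). -/
def Edge (n Bn K : ℕ) (cap size : ℕ → ℕ) (x y : ℕ) : Prop :=
  (¬ IsCorr Bn cap (x / n) (x % n) ∧ ¬ IsCorr Bn cap (y / n) (y % n) ∧ NAdj n x y) ∨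
  (IsCorr Bn cap (x / n) (x % n) ∧ IsCorr Bn cap (y / n) (y % n) ∧
    gidx cap (y / n) (y % n) = gidx cap (x / n) (x % n) + 1 ∧
    ∃ u < K, psum size u ≤ gidx cap (x / n) (x % n) ∧
      gidx cap (y / n) (y % n) < psum size (u + 1))

/-- A placement of the letters `0, ..., n * n - 1` on the board realising the graph `E`. -/
def IsPlacement (n : ℕ) (E : ℕ → ℕ → Prop) (pos : ℕ → ℤ × ℤ) : Prop :=
  (∀ x < n * n, 0 ≤ (pos x).1 ∧ (pos x).1 < n ∧ 0 ≤ (pos x).2 ∧ (pos x).2 < n) ∧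
  (∀ x < n * n, ∀ y < n * n, pos x = pos y → x = y) ∧
  (∀ x < n * n, ∀ y < n * n, E x y → KAdj (pos x) (pos y))

section

variable {n Bn K : ℕ} {cap size : ℕ → ℕ}

theorem corr_cell {b c : ℕ} (hb : b < Bn) (hc : 3 ≤ c) (hc' : c < 3 + cap b) :
    IsCorr Bn cap (4 * b + 3) c := by
  have h1 : (4 * b + 3) / 4 = b := by omega
  refine ⟨by omega, by omega, hc, by rw [h1]; exact hc'⟩

/-- The frame predicate on the integer grid. -/
def Fr (n Bn : ℕ) (cap : ℕ → ℕ) (p : ℤ × ℤ) : Prop :=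
  0 ≤ p.1 ∧ p.1 < n ∧ 0 ≤ p.2 ∧ p.2 < n ∧ ¬ IsCorr Bn cap p.1.toNat p.2.toNat

theorem fr_of {p : ℤ × ℤ} (h1 : 0 ≤ p.1) (h2 : p.1 < n) (h3 : 0 ≤ p.2) (h4 : p.2 < n)
    (h : p.1 % 4 ≠ 3 ∨ 4 * (Bn : ℤ) ≤ p.1 ∨ p.2 ≤ 2 ∨
      ∀ b : ℕ, p.1 = 4 * b + 3 → b < Bn → 3 + (cap b : ℤ) ≤ p.2) : Fr n Bn cap p := by
  refine ⟨h1, h2, h3, h4, ?_⟩
  rintro ⟨c1, c2, c3, c4⟩
  rcases h with h | h | h | h
  · omega
  · omega
  · omega
  · have := h (p.1.toNat / 4) (by omega) c2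
    omega

theorem inW_iff (z p : ℤ × ℤ) : InW z p ↔
    (z.1 - 1 ≤ p.1 ∧ p.1 ≤ z.1 + 1 ∧ z.2 - 1 ≤ p.2 ∧ p.2 ≤ z.2 + 1) := by
  unfold InW
  rw [abs_le, abs_le]
  constructor
  · rintro ⟨⟨h1, h2⟩, h3, h4⟩
    exact ⟨by omega, by omega, by omega, by omega⟩
  · rintro ⟨h1, h2, h3, h4⟩
    exact ⟨⟨by omega, by omega⟩, by omega, by omega⟩

end

end Pool.Agent.Helper88.Boggle
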