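import Pool.Agent.Helper88.BogglePack

set_option autoImplicit false

namespace Pool.Agent.Helper88.Boggle

open Classical

/-! ### Base `N` representation of 7-dimensional vectors -/

/-- numerical value of a digit vector -/
def val {d : ℕ} (N : ℕ) (a : Fin d → ℕ) : ℕ := ∑ k, a k * N ^ (k : ℕ)

theorem val_inj {N : ℕ} {d : ℕ} {a b : Fin d → ℕ} (ha : ∀ k, a k < N) (hb : ∀ k, b k < N)
    (h : val N a = val N b) : a = b := by
  induction d with
  | zero => exact Subsingleton.elim _ _
  | succ d ih =>
    unfold val at h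
    rw [Fin.sum_univ_succ, Fin.sum_univ_succ] at h
    simp only [Fin.val_zero, pow_zero, mul_one, Fin.val_succ] at h
    have e : ∀ c : Fin (d + 1) → ℕ, ∑ x : Fin d, c x.succ * N ^ (x.val + 1) =
        N * val N (fun x => c x.succ) := by
      intro c
      unfold val
      rw [Finset.mul_sum]
      apply Finset.sum_congr rfl
      intro x _
      rw [pow_succ]
      ring
    rw [e, e] at h
    have h0 : a 0 = b 0 := by
      have h1 := congrArg (· % N) h
      simp only [Nat.add_mul_mod_self_left, Nat.mod_eq_of_lt (ha 0), Nat.mod_eq_of_lt (hb 0)] at h1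
      exact h1
    have hN : 0 < N := lt_of_le_of_lt (Nat.zero_le _) (ha 0)
    have h2 : val N (fun x => a (Fin.succ x)) = val N (fun x => b (Fin.succ x)) := by
      rw [h0] at h
      exact Nat.eq_of_mul_eq_mul_left hN (Nat.add_left_cancel h)
    have h3 := ih (fun k => ha k.succ) (fun k => hb k.succ) h2
    funext k
    refine Fin.cases h0 (fun k => ?_) k
    exact congrFun h3 k

theorem val_add {N d : ℕ} (a b : Fin d → ℕ) : val N (fun k => a k + b k) = val N a + val N b := by
  unfold val
  rw [← Finset.sum_add_distrib]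
  apply Finset.sum_congr rfl
  intro k _
  ring

theorem val_sum {N d : ℕ} {ι : Type*} (s : Finset ι) (a : ι → Fin d → ℕ) :
    val N (fun k => ∑ i ∈ s, a i k) = ∑ i ∈ s, val N (a i) := by
  unfold val
  rw [Finset.sum_comm]
  apply Finset.sum_congr rfl
  intro k _
  rw [Finset.sum_mul]

theorem val_mono {N d : ℕ} {a b : Fin d → ℕ} (h : ∀ k, a k ≤ b k) : val N a ≤ val N b := by
  unfold val
  exact Finset.sum_le_sum fun k _ => Nat.mul_le_mul_right _ (h k)

/-! ### Distributions -/

theorem exists_distribution (c : ℕ → ℕ) (B F : ℕ) (h : psum c B = F) :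
    ∃ g : ℕ → ℕ, (∀ w < F, g w < B) ∧
      ∀ b < B, ((Finset.range F).filter fun w => g w = b).card = c b := by
  have : ∀ w, ∃ b, w < F → b < B ∧ psum c b ≤ w ∧ w < psum c (b + 1) := by
    intro w
    by_cases hw : w < F
    · obtain ⟨b, h1, h2, h3⟩ := exists_split (h ▸ hw)
      exact ⟨b, fun _ => ⟨h1, h2, h3⟩⟩
    · exact ⟨0, fun h => absurd h hw⟩
  choose g hg using this
  refine ⟨g, fun w hw => (hg w hw).1, fun b hb => ?_⟩
  have e : (Finset.range F).filter (fun w => g w = b) = Finset.Ico (psum c b) (psum c (b + 1)) := by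
    ext w
    simp only [Finset.mem_filter, Finset.mem_range, Finset.mem_Ico]
    constructor
    · rintro ⟨hw, rfl⟩
      exact (hg w hw).2
    · rintro ⟨h1, h2⟩
      have hw : w < F := by
        have := psum_mono c (show b + 1 ≤ B by omega)
        omega
      exact ⟨hw, split_unique (hg w hw).2.1 (hg w hw).2.2 h1 h2⟩
  rw [e, Nat.card_Ico, psum_succ]
  omega

/-- partial sums of a concatenation -/
theorem sum_range_blocks (h : ℕ → ℕ) (k F : ℕ) :
    ∑ w ∈ Finset.range (k * F), h w = ∑ a ∈ Finset.range k, ∑ g ∈ Finset.range F, h (a * F + g) := by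
  induction k with
  | zero => simp
  | succ k ih =>
    rw [Finset.sum_range_succ, ← ih, Nat.succ_mul, Finset.sum_range_add]

/-! ### The packing instance of a CNF -/

section

variable (v m : ℕ) (lit : ℕ → ℕ → ℕ → Prop)

/-- all identifiers are smaller than `bigM` -/
def bigM : ℕ := v * m + m

/-- number of filler items for each digit -/
def numF : ℕ := 2 * (v * m) * bigM v m

/-- the base -/
def baseN : ℕ := 4 * (v * m) * bigM v m + 5

/-- number of items -/
def numK : ℕ := 2 * (v * m) + m + 6 * numF v m

/-- digit vector of the blocking item of the pair `e = i * m + j` (variable `i`, clause `j`) -/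
def dV (e : ℕ) : Fin 7 → ℕ := ![2, e, bigM v m - e, 0, 0, 0, 0]

/-- digit vector of the link item of the pair `e` -/
def dL (e : ℕ) : Fin 7 → ℕ := ![1, 0, 0, e, bigM v m - e, 0, 0]

/-- digit vector of the clause item of the clause `j` -/
def dC (j : ℕ) : Fin 7 → ℕ := ![1, 0, 0, 0, 0, j, bigM v m - j]

/-- digit vector of a filler item -/
def dF (k : ℕ) : Fin 7 → ℕ := fun i => if (i : ℕ) = k + 1 then 1 else 0

/-- digit vector of the item `u` -/
def dsize (u : ℕ) : Fin 7 → ℕ :=
  if u < v * m then dV v m u
  else if u < 2 * (v * m) then dL v m (u - v * m)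
  else if u < 2 * (v * m) + m then dC v m (u - 2 * (v * m))
  else dF ((u - (2 * (v * m) + m)) / numF v m)

/-- the link identifier of the bin `b` -/
def lam (b : ℕ) : ℕ :=
  if b % 2 = 1 then b / 2 else b / 2 / m * m + (b / 2 % m + (m - 1)) % m

/-- the literal of the bin `b = 2 * e + s` occurs in its clause -/
def litB (b : ℕ) : Prop := lit (b / 2 / m) (b % 2) (b / 2 % m)

/-- digit vector of the capacity of the bin `b = 2 * e + s` -/
noncomputable def dcap (b : ℕ) : Fin 7 → ℕ :=
  ![2, b / 2, bigM v m - b / 2, lam m b, bigM v m - lam m b,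
    if litB m lit b then b / 2 % m else 0, if litB m lit b then bigM v m - b / 2 % m else 0]

/-- item sizes -/
def isize (u : ℕ) : ℕ := val (baseN v m) (dsize v m u)

/-- capacities of the bins `b < 2 * (v * m)` -/
noncomputable def bcap0 (b : ℕ) : ℕ := val (baseN v m) (dcap v m lit b)

/-- capacities of all bins; the last bin is the trash bin -/
noncomputable def bcap (b : ℕ) : ℕ :=
  if b < 2 * (v * m) then bcap0 v m lit b
  else (psum (isize v m) (numK v m) + (v * m - m)) - psum (bcap0 v m lit) (2 * (v * m))

/-- satisfiability -/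
def SatN : Prop := ∃ α : ℕ → Bool, ∀ j < m, ∃ i < v, lit i (if α i = true then 1 else 0) j

end

section

variable {v m : ℕ} {lit : ℕ → ℕ → ℕ → Prop}

theorem e_div {i j : ℕ} (hj : j < m) : (i * m + j) / m = i := by
  rw [mul_comm, Nat.mul_add_div (by omega), Nat.div_eq_of_lt hj, add_zero]

theorem e_mod {i j : ℕ} (hj : j < m) : (i * m + j) % m = j := by
  rw [mul_comm, Nat.mul_add_mod, Nat.mod_eq_of_lt hj]

theorem e_lt {i j : ℕ} (hi : i < v) (hj : j < m) : i * m + j < v * m := by
  have : (i + 1) * m ≤ v * m := Nat.mul_le_mul_right _ hi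
  nlinarith

theorem lam_lt {b : ℕ} (hm : 0 < m) (hb : b < 2 * (v * m)) : lam m b < v * m := by
  unfold lam
  split_ifs with h
  · omega
  · apply e_lt
    · apply Nat.div_lt_of_lt_mul
      rw [mul_comm m v]
      omega
    · exact Nat.mod_lt _ hm

theorem dsize_zero_pos {u : ℕ} (hu : u < 2 * (v * m) + m) : 0 < dsize v m u 0 := by
  unfold dsize
  split_ifs <;> simp [dV, dL, dC]

theorem val_pos {N d : ℕ} (hN : 0 < N) {a : Fin d → ℕ} (k : Fin d) (h : 0 < a k) : 0 < val N a := by
  unfold val
  apply Finset.sum_pos'
  · intro i _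
    exact Nat.zero_le _
  · exact ⟨k, Finset.mem_univ _, Nat.mul_pos h (pow_pos hN _)⟩

theorem numF_pos (hv : 0 < v) (hm : 0 < m) : 0 < numF v m := by
  unfold numF bigM
  have : 0 < v * m := Nat.mul_pos hv hm
  apply Nat.mul_pos <;> omega

theorem isize_pos (hv : 0 < v) (hm : 0 < m) {u : ℕ} (hu : u < numK v m) : 0 < isize v m u := by
  unfold isize
  have hN : 0 < baseN v m := by unfold baseN; omega
  by_cases h : u < 2 * (v * m) + m
  · exact val_pos hN 0 (dsize_zero_pos h)
  · have hF := numF_pos hv hm
    have hlt : (u - (2 * (v * m) + m)) / numF v m < 6 := by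
      apply Nat.div_lt_of_lt_mul
      unfold numK at hu
      rw [mul_comm]
      omega
    apply val_pos hN ⟨(u - (2 * (v * m) + m)) / numF v m + 1, by omega⟩
    unfold dsize
    rw [if_neg (by omega), if_neg (by omega), if_neg h]
    simp [dF]

/-- Digit sums of a function over the items. -/
theorem sum_items (hF : 0 < numF v m) (P : ℕ → Prop) [DecidablePred P] (k : Fin 7) :
    ∑ u ∈ (Finset.range (numK v m)).filter P, dsize v m u k =
      (∑ e ∈ (Finset.range (v * m)).filter P, dV v m e k) +
      (∑ e ∈ (Finset.range (v * m)).filter (fun e => P (v * m + e)), dL v m e k) +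
      (∑ j ∈ (Finset.range m).filter (fun j => P (2 * (v * m) + j)), dC v m j k) +
      ∑ a ∈ Finset.range 6, (((Finset.range (numF v m)).filter
        (fun g => P (2 * (v * m) + m + (a * numF v m + g)))).card * if (k : ℕ) = a + 1 then 1 else 0) := by
  have hsplit : numK v m = v * m + (v * m + (m + 6 * numF v m)) := by unfold numK; ring
  rw [Finset.sum_filter, hsplit, Finset.sum_range_add, Finset.sum_range_add, Finset.sum_range_add]
  rw [← add_assoc, ← add_assoc]
  congr 1
  · congr 1
    · congr 1
      · rw [Finset.sum_filter]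
        apply Finset.sum_congr rfl
        intro u hu
        rw [Finset.mem_range] at hu
        simp [dsize, hu]
      · rw [Finset.sum_filter]
        apply Finset.sum_congr rfl
        intro u hu
        rw [Finset.mem_range] at hu
        have h1 : ¬ v * m + u < v * m := by omega
        have h2 : v * m + u < 2 * (v * m) := by omega
        simp [dsize, h1, h2]
    · rw [Finset.sum_filter]
      apply Finset.sum_congr rfl
      intro u hu
      rw [Finset.mem_range] at hu
      have h0 : v * m + (v * m + u) = 2 * (v * m) + u := by ring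
      rw [h0]
      have h1 : ¬ 2 * (v * m) + u < v * m := by omega
      have h2 : ¬ 2 * (v * m) + u < 2 * (v * m) := by omega
      simp [dsize, h1, h2, hu]
  · rw [sum_range_blocks (fun x => if P (v * m + (v * m + (m + x))) then
      dsize v m (v * m + (v * m + (m + x))) k else 0)]
    apply Finset.sum_congr rfl
    intro a ha
    rw [Finset.card_filter, Finset.sum_mul]
    apply Finset.sum_congr rfl
    intro g hg
    rw [Finset.mem_range] at hg
    have h0 : v * m + (v * m + (m + (a * numF v m + g))) =
      2 * (v * m) + m + (a * numF v m + g) := by ring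
    rw [h0]
    have h1 : ¬ 2 * (v * m) + m + (a * numF v m + g) < v * m := by omega
    have h2 : ¬ 2 * (v * m) + m + (a * numF v m + g) < 2 * (v * m) := by omega
    have h3 : ¬ 2 * (v * m) + m + (a * numF v m + g) < 2 * (v * m) + m := by omega
    have h4 : (2 * (v * m) + m + (a * numF v m + g) - (2 * (v * m) + m)) / numF v m = a := by
      rw [Nat.add_sub_cancel_left, mul_comm, Nat.mul_add_div hF, Nat.div_eq_of_lt hg, add_zero]
    simp only [dsize, h1, h2, h3, h4, if_false, dF]
    split_ifs <;> simp

/-- total digit sums of all items -/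
theorem tot_le (hv : 0 < v) (hm : 0 < m) (k : Fin 7) :
    ∑ u ∈ Finset.range (numK v m), dsize v m u k ≤
      (if k = 0 then 3 * (v * m) + m else numF v m + (v * m) * bigM v m) ∧
    (if k = 0 then 3 * (v * m) + m else numF v m) ≤
      ∑ u ∈ Finset.range (numK v m), dsize v m u k := by
  have hF := numF_pos hv hm
  have h := sum_items hF (fun _ => True) k
  simp only [Finset.filter_true, Finset.card_range] at h
  rw [h]
  have hM : m ≤ v * m := Nat.le_mul_of_pos_left m hv
  have hle : ∀ e ∈ Finset.range (v * m), e ≤ bigM v m := by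
    intro e he
    rw [Finset.mem_range] at he
    unfold bigM; omega
  have s1 : ∑ e ∈ Finset.range (v * m), e ≤ v * m * bigM v m := by
    calc _ ≤ ∑ e ∈ Finset.range (v * m), bigM v m := Finset.sum_le_sum hle
      _ = _ := by simp
  have s2 : ∑ e ∈ Finset.range (v * m), (bigM v m - e) ≤ v * m * bigM v m := by
    calc _ ≤ ∑ e ∈ Finset.range (v * m), bigM v m := Finset.sum_le_sum fun _ _ => Nat.sub_le _ _
      _ = _ := by simp
  have s3 : ∑ e ∈ Finset.range m, e ≤ v * m * bigM v m := by
    refine le_trans ?_ s1
    exact Finset.sum_le_sum_of_subset (Finset.range_mono hM)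
  have s4 : ∑ e ∈ Finset.range m, (bigM v m - e) ≤ v * m * bigM v m := by
    refine le_trans ?_ s2
    exact Finset.sum_le_sum_of_subset (Finset.range_mono hM)
  fin_cases k
  · simp [dV, dL, dC]; omega
  · simp [dV, dL, dC]; omega
  · simp [dV, dL, dC]; omega
  · simp [dV, dL, dC]; omega
  · simp [dV, dL, dC]; omega
  · simp [dV, dL, dC]; omega
  · simp [dV, dL, dC]; omega

theorem dcap_le (_hv : 0 < v) (hm : 0 < m) {b : ℕ} (hb : b < 2 * (v * m)) (k : Fin 7) :
    dcap v m lit b k ≤ if k = 0 then 2 else bigM v m := by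
  have hl := lam_lt hm hb
  have hmod : b / 2 % m < m := Nat.mod_lt _ hm
  have hM : v * m ≤ bigM v m ∧ m ≤ bigM v m := by unfold bigM; omega
  fin_cases k <;> simp [dcap] <;> (try split_ifs) <;> omega

theorem psum_val {N d : ℕ} (a : ℕ → Fin d → ℕ) (B : ℕ) :
    psum (fun b => val N (a b)) B = val N (fun k => ∑ b ∈ Finset.range B, a b k) :=
  (val_sum _ _).symm

theorem vm_bounds (hv : 0 < v) (hm : 0 < m) : m ≤ v * m ∧ v * m ≤ bigM v m ∧ 0 < v * m ∧
    v * m ≤ v * m * bigM v m ∧ bigM v m ≤ v * m * bigM v m := by
  have h1 : m ≤ v * m := Nat.le_mul_of_pos_left m hv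
  have h2 : 0 < v * m := Nat.mul_pos hv hm
  have h3 : v * m ≤ bigM v m := by unfold bigM; omega
  exact ⟨h1, h3, h2, Nat.le_mul_of_pos_right _ (by omega), Nat.le_mul_of_pos_left _ h2⟩

theorem psum_bcap0_le (hv : 0 < v) (hm : 0 < m) :
    psum (bcap0 v m lit) (2 * (v * m)) ≤ psum (isize v m) (numK v m) + (v * m - m) := by
  obtain ⟨b1, b2, b3, b4, b5⟩ := vm_bounds hv hm
  have e1 : psum (bcap0 v m lit) (2 * (v * m)) =
      val (baseN v m) (fun k => ∑ b ∈ Finset.range (2 * (v * m)), dcap v m lit b k) :=
    psum_val (dcap v m lit) _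
  have e2 : psum (isize v m) (numK v m) =
      val (baseN v m) (fun k => ∑ b ∈ Finset.range (numK v m), dsize v m b k) :=
    psum_val (dsize v m) _
  have e3 : val (baseN v m) (fun k : Fin 7 => if k = 0 then v * m - m else 0) = v * m - m := by
    unfold val
    rw [Fin.sum_univ_succ]
    simp
  rw [e1, e2]
  conv_rhs => rw [← e3, ← val_add]
  apply val_mono
  intro k
  have h1 := (tot_le hv hm k).2
  have h2 : ∑ b ∈ Finset.range (2 * (v * m)), dcap v m lit b k ≤
      2 * (v * m) * (if k = 0 then 2 else bigM v m) := by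
    calc _ ≤ ∑ b ∈ Finset.range (2 * (v * m)), (if k = 0 then 2 else bigM v m) :=
          Finset.sum_le_sum fun b hb => dcap_le hv hm (Finset.mem_range.1 hb) k
      _ = _ := by simp
  by_cases hk : k = 0
  · simp only [hk, if_true] at h1 h2 ⊢
    omega
  · simp only [hk, if_false] at h1 h2 ⊢
    unfold numF at h1
    omega

theorem psum_congr {c c' : ℕ → ℕ} {B : ℕ} (h : ∀ b < B, c b = c' b) : psum c B = psum c' B :=
  Finset.sum_congr rfl fun b hb => h b (Finset.mem_range.1 hb)

theorem psum_bcap (hv : 0 < v) (hm : 0 < m) :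
    psum (bcap v m lit) (2 * (v * m) + 1) = psum (isize v m) (numK v m) + (v * m - m) := by
  rw [psum_succ]
  have h1 : psum (bcap v m lit) (2 * (v * m)) = psum (bcap0 v m lit) (2 * (v * m)) :=
    psum_congr fun b hb => if_pos hb
  have h2 : bcap v m lit (2 * (v * m)) = (psum (isize v m) (numK v m) + (v * m - m)) -
      psum (bcap0 v m lit) (2 * (v * m)) := if_neg (lt_irrefl _)
  rw [h1, h2]
  have := psum_bcap0_le (lit := lit) hv hm
  omega

/-- loads of the digits -/
def load (v m : ℕ) (f : ℕ → ℕ) (b : ℕ) (k : Fin 7) : ℕ :=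
  ∑ u ∈ (Finset.range (numK v m)).filter (fun u => f u = b), dsize v m u k

theorem val_load (f : ℕ → ℕ) (b : ℕ) : val (baseN v m) (load v m f b) =
    ∑ u ∈ (Finset.range (numK v m)).filter (fun u => f u = b), isize v m u :=
  val_sum _ _

theorem sum_load {f : ℕ → ℕ} {B : ℕ} (hf : ∀ u < numK v m, f u < B) (k : Fin 7) :
    ∑ b ∈ Finset.range B, load v m f b k = ∑ u ∈ Finset.range (numK v m), dsize v m u k := by
  unfold load
  rw [Finset.sum_fiberwise_of_maps_to (s := Finset.range (numK v m)) (t := Finset.range B)
    (g := f) (fun u hu => Finset.mem_range.2 (hf u (Finset.mem_range.1 hu)))]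

theorem sum_isize_fiber {f : ℕ → ℕ} {B : ℕ} (hf : ∀ u < numK v m, f u < B) :
    ∑ b ∈ Finset.range B, (∑ u ∈ (Finset.range (numK v m)).filter (fun u => f u = b),
      isize v m u) = psum (isize v m) (numK v m) := by
  rw [Finset.sum_fiberwise_of_maps_to (s := Finset.range (numK v m)) (t := Finset.range B)
    (g := f) (fun u hu => Finset.mem_range.2 (hf u (Finset.mem_range.1 hu)))]
  rfl

/-- In a packing all bins `b < 2 v m` are filled digit by digit. -/
theorem load_le_dcap (hv : 0 < v) (hm : 0 < m) {f : ℕ → ℕ}
    (hf : IsPacking (2 * (v * m) + 1) (numK v m) (bcap v m lit) (isize v m) f) :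
    (∀ b < 2 * (v * m), ∀ k, load v m f b k ≤ dcap v m lit b k) ∧
      load v m f (2 * (v * m)) 0 = 0 := by
  obtain ⟨b1, b2, b3, b4, b5⟩ := vm_bounds hv hm
  obtain ⟨hf1, hf2⟩ := hf
  -- slack
  let r : ℕ → ℕ := fun b => bcap v m lit b - val (baseN v m) (load v m f b)
  have hr : ∀ b < 2 * (v * m) + 1, val (baseN v m) (load v m f b) + r b = bcap v m lit b := by
    intro b hb
    have := hf2 b hb
    rw [← val_load] at this
    change _ + (bcap v m lit b - _) = _
    omega
  have hrsum : ∑ b ∈ Finset.range (2 * (v * m) + 1), r b = v * m - m := by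
    have h1 : ∑ b ∈ Finset.range (2 * (v * m) + 1),
        (val (baseN v m) (load v m f b) + r b) = psum (bcap v m lit) (2 * (v * m) + 1) :=
      Finset.sum_congr rfl fun b hb => hr b (Finset.mem_range.1 hb)
    rw [Finset.sum_add_distrib, psum_bcap hv hm] at h1
    simp only [val_load] at h1
    rw [sum_isize_fiber hf1] at h1
    omega
  have hr1 : ∀ b < 2 * (v * m) + 1, r b ≤ v * m - m := by
    intro b hb
    rw [← hrsum]
    exact Finset.single_le_sum (f := r) (fun _ _ => Nat.zero_le _) (Finset.mem_range.2 hb)
  have hl : ∀ b < 2 * (v * m) + 1, ∀ k, load v m f b k ≤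
      if k = 0 then 3 * (v * m) + m else numF v m + (v * m) * bigM v m := by
    intro b hb k
    refine le_trans ?_ (tot_le hv hm k).1
    rw [← sum_load hf1]
    exact Finset.single_le_sum (f := fun b => load v m f b k) (fun _ _ => Nat.zero_le _)
      (Finset.mem_range.2 hb)
  let L' : ℕ → Fin 7 → ℕ := fun b k => load v m f b k + if k = 0 then r b else 0
  have hval : ∀ b, val (baseN v m) (L' b) = val (baseN v m) (load v m f b) + r b := by
    intro b
    change val _ (fun k => load v m f b k + if k = 0 then r b else 0) = _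
    rw [val_add]
    congr 1
    unfold val
    rw [Fin.sum_univ_succ]
    simp
  have hEq : ∀ b < 2 * (v * m), L' b = dcap v m lit b := by
    intro b hb
    apply val_inj (N := baseN v m)
    · intro k
      have h1 := hl b (by omega) k
      have h2 := hr1 b (by omega)
      change load v m f b k + (if k = 0 then r b else 0) < baseN v m
      unfold baseN
      by_cases hk : k = 0
      · simp only [hk, if_true] at h1 ⊢
        rw [mul_assoc 4]
        omega
      · simp only [hk, if_false] at h1 ⊢
        unfold numF at h1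
        rw [mul_assoc] at h1
        rw [mul_assoc 4]
        omega
    · intro k
      have h1 := dcap_le (lit := lit) hv hm hb k
      unfold baseN
      rw [mul_assoc 4]
      by_cases hk : k = 0
      · simp only [hk, if_true] at h1
        rw [hk]
        omega
      · simp only [hk, if_false] at h1
        omega
    · rw [hval, hr b (by omega)]
      exact if_pos hb
  constructor
  · intro b hb k
    have := congrFun (hEq b hb) k
    change load v m f b k + _ = _ at this
    omega
  · -- count the digit `0`
    have h1 : ∀ b < 2 * (v * m), load v m f b 0 + r b = 2 := by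
      intro b hb
      have := congrFun (hEq b hb) 0
      change load v m f b 0 + (if (0 : Fin 7) = 0 then r b else 0) = 2 at this
      simpa using this
    have h2 : ∑ b ∈ Finset.range (2 * (v * m) + 1), (load v m f b 0 + r b) =
        (3 * (v * m) + m) + (v * m - m) := by
      rw [Finset.sum_add_distrib, hrsum, sum_load hf1]
      have := tot_le hv hm 0
      simp only [if_true] at this
      omega
    rw [Finset.sum_range_succ, Finset.sum_congr rfl
      (fun b hb => h1 b (Finset.mem_range.1 hb))] at h2
    simp only [Finset.sum_const, Finset.card_range, smul_eq_mul] at h2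
    omega

end

end Pool.Agent.Helper88.Boggle
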