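import Pool.Agent.Helper88.BoggleSat

set_option autoImplicit false

namespace Pool.Agent.Helper88.Boggle

open Classical

variable {v m : ℕ} {lit : ℕ → ℕ → ℕ → Prop}

theorem le_load (f : ℕ → ℕ) {u : ℕ} (hu : u < numK v m) (k : Fin 7) :
    dsize v m u k ≤ load v m f (f u) k :=
  Finset.single_le_sum (f := fun u => dsize v m u k) (fun _ _ => Nat.zero_le _)
    (Finset.mem_filter.2 ⟨Finset.mem_range.2 hu, rfl⟩)

theorem pair_le_load (f : ℕ → ℕ) {u u' : ℕ} (hu : u < numK v m) (hu' : u' < numK v m)
    (hne : u ≠ u') (he : f u = f u') (k : Fin 7) :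
    dsize v m u k + dsize v m u' k ≤ load v m f (f u) k := by
  unfold load
  rw [← Finset.sum_pair (f := fun u => dsize v m u k) hne]
  apply Finset.sum_le_sum_of_subset
  intro y hy
  simp only [Finset.mem_insert, Finset.mem_singleton] at hy
  rcases hy with rfl | rfl
  · exact Finset.mem_filter.2 ⟨Finset.mem_range.2 hu, rfl⟩
  · exact Finset.mem_filter.2 ⟨Finset.mem_range.2 hu', he.symm⟩

theorem dsize_V {e : ℕ} (he : e < v * m) : dsize v m e = dV v m e := if_pos he

theorem dsize_L {e : ℕ} (he : e < v * m) : dsize v m (v * m + e) = dL v m e := by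
  have h1 : ¬ v * m + e < v * m := by omega
  have h2 : v * m + e < 2 * (v * m) := by omega
  simp [dsize, h1, h2]

theorem dsize_C {j : ℕ} (hj : j < m) : dsize v m (2 * (v * m) + j) = dC v m j := by
  have h1 : ¬ 2 * (v * m) + j < v * m := by omega
  have h2 : ¬ 2 * (v * m) + j < 2 * (v * m) := by omega
  simp [dsize, h1, h2, hj]

theorem sat_of_packing (hv : 0 < v) (hm : 0 < m) {f : ℕ → ℕ}
    (hf : IsPacking (2 * (v * m) + 1) (numK v m) (bcap v m lit) (isize v m) f) :
    SatN v m lit := by
  obtain ⟨b1, b2, b3, b4, b5⟩ := vm_bounds hv hm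
  obtain ⟨hload, htrash⟩ := load_le_dcap hv hm hf
  have hK : 2 * (v * m) + m ≤ numK v m := by unfold numK; omega
  -- main items are in the bins `< 2 v m`
  have hmain : ∀ u < 2 * (v * m) + m, f u < 2 * (v * m) := by
    intro u hu
    have h1 := hf.1 u (by omega)
    by_contra hcon
    have h2 : f u = 2 * (v * m) := by omega
    have h3 := le_load f (show u < numK v m by omega) 0
    rw [h2, htrash] at h3
    have := dsize_zero_pos hu
    omega
  have hd : ∀ u < 2 * (v * m) + m, ∀ k, dsize v m u k ≤ dcap v m lit (f u) k := by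
    intro u hu k
    exact (le_load f (by omega) k).trans (hload _ (hmain u hu) k)
  have hpair : ∀ u < 2 * (v * m) + m, ∀ u' < 2 * (v * m) + m, u ≠ u' → f u = f u' →
      dsize v m u 0 + dsize v m u' 0 ≤ 2 := by
    intro u hu u' hu' hne he
    exact (pair_le_load f (by omega) (by omega) hne he 0).trans (hload _ (hmain u hu) 0)
  -- positions of the three kinds of items
  have hV : ∀ e < v * m, f e / 2 = e := by
    intro e he
    have h1 := hd e (by omega) 1
    have h2 := hd e (by omega) 2
    have h3 := hmain e (by omega)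
    rw [dsize_V he] at h1 h2
    simp [dV, dcap] at h1 h2
    omega
  have hL : ∀ e < v * m, lam m (f (v * m + e)) = e := by
    intro e he
    have h1 := hd (v * m + e) (by omega) 3
    have h2 := hd (v * m + e) (by omega) 4
    have h3 := lam_lt hm (hmain (v * m + e) (by omega))
    rw [dsize_L he] at h1 h2
    simp [dL, dcap] at h1 h2
    omega
  have hC : ∀ j < m, litB m lit (f (2 * (v * m) + j)) ∧ f (2 * (v * m) + j) / 2 % m = j := by
    intro j hj
    have h1 := hd (2 * (v * m) + j) (by omega) 5
    have h2 := hd (2 * (v * m) + j) (by omega) 6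
    have h3 := Nat.mod_lt (f (2 * (v * m) + j) / 2) hm
    rw [dsize_C hj] at h1 h2
    simp only [dC, dcap] at h1 h2
    simp at h1 h2
    split_ifs at h1 h2 with h
    · exact ⟨h, by omega⟩
    · omega
  -- the chosen side
  have hside : ∀ i < v, ∀ j < m, f (i * m + j) % 2 = 1 → f (i * m + (j + 1) % m) % 2 = 1 := by
    intro i hi j hj h1
    have hj' : (j + 1) % m < m := Nat.mod_lt _ hm
    by_contra hcon
    have he := e_lt (m := m) hi hj
    have he' := e_lt (m := m) hi hj'
    have hVe := hV _ he
    have hVe' := hV _ he'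
    have hLe := hL _ he
    set b := f (v * m + (i * m + j)) with hb
    have hbm := hmain (v * m + (i * m + j)) (by omega)
    rw [← hb] at hbm
    unfold lam at hLe
    split_ifs at hLe with hodd
    · -- the link item shares the bin of `V_{i,j}`
      have hbe : f (i * m + j) = f (v * m + (i * m + j)) := by rw [← hb]; omega
      have := hpair (i * m + j) (by omega) (v * m + (i * m + j)) (by omega) (by omega) hbe
      rw [dsize_V he, dsize_L he] at this
      simp [dV, dL] at this
    · -- the link item shares the bin of `V_{i,j+1}`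
      have hjj : (b / 2 % m + (m - 1)) % m < m := Nat.mod_lt _ hm
      have hdiv : b / 2 / m = i := by
        have := congrArg (· / m) hLe
        rwa [e_div hjj, e_div hj] at this
      have hmod : (b / 2 % m + (m - 1)) % m = j := by
        have := congrArg (· % m) hLe
        rwa [e_mod hjj, e_mod hj] at this
      have hx : b / 2 % m < m := Nat.mod_lt _ hm
      have hmod2 : b / 2 % m = (j + 1) % m := by
        rw [← hmod]
        rw [Nat.add_mod ((b / 2 % m + (m - 1)) % m) 1 m, Nat.mod_mod, ← Nat.add_mod]
        have : b / 2 % m + (m - 1) + 1 = b / 2 % m + m := by omega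
        rw [this, Nat.add_mod_right, Nat.mod_mod]
      have hb2 : b / 2 = i * m + (j + 1) % m := by
        rw [← hdiv, ← hmod2, mul_comm]
        exact (Nat.div_add_mod _ _).symm
      have hbe : f (i * m + (j + 1) % m) = f (v * m + (i * m + j)) := by rw [← hb]; omega
      have := hpair (i * m + (j + 1) % m) (by omega) (v * m + (i * m + j)) (by omega) (by omega) hbe
      rw [dsize_V he', dsize_L he] at this
      simp [dV, dL] at this
  have hup : ∀ i < v, ∀ j < m, f (i * m + j) % 2 = 1 → ∀ j' < m, j ≤ j' →
      f (i * m + j') % 2 = 1 := by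
    intro i hi j hj h1 j' hj' hle
    induction j', hle using Nat.le_induction with
    | base => exact h1
    | succ j' hle ih =>
      have h2 := hside i hi j' (by omega) (ih (by omega))
      rwa [Nat.mod_eq_of_lt hj'] at h2
  have hall : ∀ i < v, ∀ j < m, f (i * m + j) % 2 = f (i * m) % 2 := by
    intro i hi j hj
    have h0 : f (i * m) % 2 = 0 ∨ f (i * m) % 2 = 1 := by omega
    rcases h0 with h0 | h0
    · rw [h0]
      by_contra hcon
      have h1 : f (i * m + j) % 2 = 1 := by omega
      have h2 := hup i hi j hj h1 (m - 1) (by omega) (by omega)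
      have h3 := hside i hi (m - 1) (by omega) h2
      have h4 : (m - 1 + 1) % m = 0 := by
        rw [Nat.sub_add_cancel hm, Nat.mod_self]
      rw [h4, add_zero] at h3
      omega
    · rw [h0]
      exact hup i hi 0 hm (by simpa using h0) j hj (Nat.zero_le _)
  refine ⟨fun i => decide (f (i * m) % 2 = 0), fun j hj => ?_⟩
  obtain ⟨h1, h2⟩ := hC j hj
  set b := f (2 * (v * m) + j) with hb
  have hbm := hmain (2 * (v * m) + j) (by omega)
  rw [← hb] at hbm
  have hi : b / 2 / m < v := by
    apply Nat.div_lt_of_lt_mul
    rw [mul_comm m v]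
    omega
  refine ⟨b / 2 / m, hi, ?_⟩
  have hbe : b / 2 = b / 2 / m * m + j := by
    rw [← h2, mul_comm]
    exact (Nat.div_add_mod _ _).symm
  -- the clause item does not share the bin of `V`
  have hne : f (b / 2 / m * m + j) ≠ b := by
    intro he
    have hlt := e_lt (m := m) hi hj
    have := hpair (b / 2 / m * m + j) (by omega) (2 * (v * m) + j) (by omega) (by omega)
      (by rw [he, hb])
    rw [dsize_V hlt, dsize_C hj] at this
    simp [dV, dC] at this
  have hV' := hV _ (e_lt (m := m) hi hj)
  have hpar := hall _ hi j hj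
  have hs : b % 2 = if decide (f (b / 2 / m * m) % 2 = 0) = true then 1 else 0 := by
    rw [← hpar]
    have h5 : f (b / 2 / m * m + j) / 2 = b / 2 := by rw [hV', ← hbe]
    by_cases h6 : f (b / 2 / m * m + j) % 2 = 0
    · simp only [h6, decide_true, if_true]
      omega
    · simp only [h6, decide_false, Bool.false_eq_true, if_false]
      omega
  unfold litB at h1
  rw [h2, hs] at h1
  exact h1

/-! ### From a satisfying assignment to a packing -/

section

variable (v m : ℕ) (α : ℕ → Bool) (ch : ℕ → ℕ)

/-- bins of the blocking items -/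
def gV (e : ℕ) : ℕ := 2 * e + (if α (e / m) = true then 0 else 1)

/-- bins of the link items -/
def gL (e : ℕ) : ℕ := if α (e / m) = true then 2 * e + 1 else 2 * (e / m * m + (e % m + 1) % m)

/-- bins of the clause items -/
def gC (j : ℕ) : ℕ := 2 * (ch j * m + j) + (if α (ch j) = true then 1 else 0)

/-- loads of the main items -/
def ml (b : ℕ) (k : Fin 7) : ℕ :=
  (∑ e ∈ (Finset.range (v * m)).filter (fun e => gV m α e = b), dV v m e k) +
  (∑ e ∈ (Finset.range (v * m)).filter (fun e => gL m α e = b), dL v m e k) +
  (∑ j ∈ (Finset.range m).filter (fun j => gC m α ch j = b), dC v m j k)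

end

theorem sum_le_of_subset_singleton {s : Finset ℕ} {a : ℕ} {h : ℕ → ℕ} {c : ℕ}
    (hs : ∀ x ∈ s, x = a ∧ h a ≤ c) : ∑ x ∈ s, h x ≤ c := by
  by_cases hne : s.Nonempty
  · obtain ⟨x, hx⟩ := hne
    have h1 : s ⊆ {a} := fun y hy => Finset.mem_singleton.2 (hs y hy).1
    calc ∑ x ∈ s, h x ≤ ∑ x ∈ ({a} : Finset ℕ), h x := Finset.sum_le_sum_of_subset h1
      _ = h a := by simp
      _ ≤ c := (hs x hx).2
  · rw [Finset.not_nonempty_iff_eq_empty] at hne
    rw [hne]
    simp

variable {α : ℕ → Bool} {ch : ℕ → ℕ}

theorem gL_spec (hm : 0 < m) {e b : ℕ} (h : gL m α e = b) :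
    e = lam m b ∧ b % 2 = (if α (b / 2 / m) = true then 1 else 0) := by
  have hj : e % m < m := Nat.mod_lt _ hm
  have hjj : (e % m + 1) % m < m := Nat.mod_lt _ hm
  have hem : e / m * m + e % m = e := by
    rw [mul_comm]
    exact Nat.div_add_mod e m
  unfold gL at h
  split_ifs at h with hα
  · have hb : b / 2 = e := by omega
    have hb2 : b % 2 = 1 := by omega
    refine ⟨?_, ?_⟩
    · unfold lam
      rw [if_pos hb2, hb]
    · rw [hb, if_pos hα, hb2]
  · have hb : b / 2 = e / m * m + (e % m + 1) % m := by omega
    have hb2 : b % 2 = 0 := by omega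
    have hdiv : b / 2 / m = e / m := by rw [hb, e_div hjj]
    have hmod : b / 2 % m = (e % m + 1) % m := by rw [hb, e_mod hjj]
    refine ⟨?_, ?_⟩
    · unfold lam
      rw [if_neg (by omega), hdiv, hmod]
      have : ((e % m + 1) % m + (m - 1)) % m = e % m := by
        rw [Nat.add_mod, Nat.mod_mod, ← Nat.add_mod]
        have : e % m + 1 + (m - 1) = e % m + m := by omega
        rw [this, Nat.add_mod_right, Nat.mod_mod]
      rw [this, hem]
    · rw [hdiv, if_neg hα, hb2]

theorem gV_spec {e b : ℕ} (h : gV m α e = b) :
    e = b / 2 ∧ b % 2 = (if α (b / 2 / m) = true then 0 else 1) := by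
  unfold gV at h
  split_ifs at h with hα
  · have hb : b / 2 = e := by omega
    rw [hb, if_pos hα]
    exact ⟨rfl, by omega⟩
  · have hb : b / 2 = e := by omega
    rw [hb, if_neg hα]
    exact ⟨rfl, by omega⟩

theorem gC_spec (hch : ∀ j < m, ch j < v ∧ lit (ch j) (if α (ch j) = true then 1 else 0) j)
    {j b : ℕ} (hj : j < m) (h : gC m α ch j = b) :
    j = b / 2 % m ∧ b % 2 = (if α (b / 2 / m) = true then 1 else 0) ∧ litB m lit b := by
  have hb : b / 2 = ch j * m + j := by
    unfold gC at h
    split_ifs at h <;> omega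
  have hdiv : b / 2 / m = ch j := by rw [hb, e_div hj]
  have hmod : b / 2 % m = j := by rw [hb, e_mod hj]
  have hpar : b % 2 = (if α (ch j) = true then 1 else 0) := by
    unfold gC at h
    split_ifs at h ⊢ <;> omega
  refine ⟨hmod.symm, by rw [hdiv]; exact hpar, ?_⟩
  unfold litB
  rw [hdiv, hmod, hpar]
  exact (hch j hj).2

theorem ml_le (hm : 0 < m) (hch : ∀ j < m, ch j < v ∧ lit (ch j) (if α (ch j) = true then 1 else 0) j)
    (b : ℕ) (k : Fin 7) : ml v m α ch b k ≤ dcap v m lit b k := by
  unfold ml
  by_cases hpar : b % 2 = (if α (b / 2 / m) = true then 0 else 1)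
  · have hne : b % 2 ≠ (if α (b / 2 / m) = true then 1 else 0) := by
      rw [hpar]; split_ifs <;> omega
    have h2 : (Finset.range (v * m)).filter (fun e => gL m α e = b) = ∅ := by
      rw [Finset.filter_eq_empty_iff]
      intro e _ he
      exact hne (gL_spec hm he).2
    have h3 : (Finset.range m).filter (fun j => gC m α ch j = b) = ∅ := by
      rw [Finset.filter_eq_empty_iff]
      intro j hj he
      exact hne (gC_spec hch (Finset.mem_range.1 hj) he).2.1
    rw [h2, h3, Finset.sum_empty, Finset.sum_empty, add_zero, add_zero]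
    apply sum_le_of_subset_singleton (a := b / 2)
    intro e he
    rw [Finset.mem_filter] at he
    refine ⟨(gV_spec he.2).1, ?_⟩
    fin_cases k <;> simp [dV, dcap]
  · have h1 : (Finset.range (v * m)).filter (fun e => gV m α e = b) = ∅ := by
      rw [Finset.filter_eq_empty_iff]
      intro e _ he
      exact hpar (gV_spec he).2
    rw [h1, Finset.sum_empty, zero_add]
    have h2 : ∑ e ∈ (Finset.range (v * m)).filter (fun e => gL m α e = b), dL v m e k ≤
        dL v m (lam m b) k := by
      apply sum_le_of_subset_singleton (a := lam m b)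
      intro e he
      rw [Finset.mem_filter] at he
      exact ⟨(gL_spec hm he.2).1, le_rfl⟩
    have h3 : ∑ j ∈ (Finset.range m).filter (fun j => gC m α ch j = b), dC v m j k ≤
        if litB m lit b then dC v m (b / 2 % m) k else 0 := by
      apply sum_le_of_subset_singleton (a := b / 2 % m)
      intro j hj
      rw [Finset.mem_filter, Finset.mem_range] at hj
      obtain ⟨k1, k2, k3⟩ := gC_spec hch hj.1 hj.2
      refine ⟨k1, ?_⟩
      rw [if_pos k3]
    refine (Nat.add_le_add h2 h3).trans ?_
    by_cases hl : litB m lit b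
    · rw [if_pos hl]
      fin_cases k <;> simp [dL, dC, dcap, hl]
    · rw [if_neg hl]
      fin_cases k <;> simp [dL, dcap, hl]

theorem packing_of_sat (hv : 0 < v) (hm : 0 < m) (hsat : SatN v m lit) :
    ∃ f, IsPacking (2 * (v * m) + 1) (numK v m) (bcap v m lit) (isize v m) f := by
  obtain ⟨b1, b2, b3, b4, b5⟩ := vm_bounds hv hm
  obtain ⟨α, hα⟩ := hsat
  have : ∀ j, ∃ i, j < m → i < v ∧ lit i (if α i = true then 1 else 0) j := by
    intro j
    by_cases hj : j < m
    · obtain ⟨i, h1, h2⟩ := hα j hj
      exact ⟨i, fun _ => ⟨h1, h2⟩⟩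
    · exact ⟨0, fun h => absurd h hj⟩
  choose ch hch using this
  have hml := ml_le (α := α) hm hch
  have hF := numF_pos hv hm
  -- bins of the main items are smaller than `2 v m`
  have hgV : ∀ e < v * m, gV m α e < 2 * (v * m) := by
    intro e he
    unfold gV
    split_ifs <;> omega
  have hgL : ∀ e < v * m, gL m α e < 2 * (v * m) := by
    intro e he
    unfold gL
    split_ifs
    · omega
    · have h1 : e / m < v := by
        apply Nat.div_lt_of_lt_mul
        rw [mul_comm m v]
        exact he
      have := e_lt h1 (Nat.mod_lt (e % m + 1) hm)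
      omega
  have hgC : ∀ j < m, gC m α ch j < 2 * (v * m) := by
    intro j hj
    have := e_lt (hch j hj).1 hj
    unfold gC
    split_ifs <;> omega
  -- filler counts
  let c : ℕ → ℕ → ℕ := fun a b =>
    if h : a < 6 then
      (if b < 2 * (v * m) then dcap v m lit b ⟨a + 1, by omega⟩ - ml v m α ch b ⟨a + 1, by omega⟩
      else numF v m - ∑ b ∈ Finset.range (2 * (v * m)),
        (dcap v m lit b ⟨a + 1, by omega⟩ - ml v m α ch b ⟨a + 1, by omega⟩))
    else 0
  have hc : ∀ a < 6, psum (c a) (2 * (v * m) + 1) = numF v m := by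
    intro a ha
    rw [psum_succ]
    have h1 : psum (c a) (2 * (v * m)) = ∑ b ∈ Finset.range (2 * (v * m)),
        (dcap v m lit b ⟨a + 1, by omega⟩ - ml v m α ch b ⟨a + 1, by omega⟩) := by
      apply Finset.sum_congr rfl
      intro b hb
      rw [Finset.mem_range] at hb
      simp only [c, dif_pos ha, if_pos hb]
    have h2 : c a (2 * (v * m)) = numF v m - ∑ b ∈ Finset.range (2 * (v * m)),
        (dcap v m lit b ⟨a + 1, by omega⟩ - ml v m α ch b ⟨a + 1, by omega⟩) := by
      simp only [c, dif_pos ha, if_neg (lt_irrefl _)]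
    have h3 : ∑ b ∈ Finset.range (2 * (v * m)),
        (dcap v m lit b ⟨a + 1, by omega⟩ - ml v m α ch b ⟨a + 1, by omega⟩) ≤ numF v m := by
      calc _ ≤ ∑ b ∈ Finset.range (2 * (v * m)), bigM v m := by
            apply Finset.sum_le_sum
            intro b hb
            have := dcap_le (lit := lit) hv hm (Finset.mem_range.1 hb) ⟨a + 1, by omega⟩
            rw [if_neg (by rw [Fin.ext_iff]; simp)] at this
            omega
        _ = numF v m := by simp [numF]
    omega
  have hdist : ∀ a, ∃ g : ℕ → ℕ, a < 6 → (∀ w < numF v m, g w < 2 * (v * m) + 1) ∧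
      ∀ b < 2 * (v * m) + 1, ((Finset.range (numF v m)).filter fun w => g w = b).card = c a b := by
    intro a
    by_cases ha : a < 6
    · obtain ⟨g, h1, h2⟩ := exists_distribution (c a) _ _ (hc a ha)
      exact ⟨g, fun _ => ⟨h1, h2⟩⟩
    · exact ⟨fun _ => 0, fun h => absurd h ha⟩
  choose g hg using hdist
  let f : ℕ → ℕ := fun u =>
    if u < v * m then gV m α u
    else if u < 2 * (v * m) then gL m α (u - v * m)
    else if u < 2 * (v * m) + m then gC m α ch (u - 2 * (v * m))
    else g ((u - (2 * (v * m) + m)) / numF v m) ((u - (2 * (v * m) + m)) % numF v m)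
  have fV : ∀ e < v * m, f e = gV m α e := fun e he => if_pos he
  have fL : ∀ e < v * m, f (v * m + e) = gL m α e := by
    intro e he
    have h1 : ¬ v * m + e < v * m := by omega
    have h2 : v * m + e < 2 * (v * m) := by omega
    simp [f, h1, h2]
  have fC : ∀ j < m, f (2 * (v * m) + j) = gC m α ch j := by
    intro j hj
    have h1 : ¬ 2 * (v * m) + j < v * m := by omega
    have h2 : ¬ 2 * (v * m) + j < 2 * (v * m) := by omega
    simp [f, h1, h2, hj]
  have fF : ∀ a w, w < numF v m → f (2 * (v * m) + m + (a * numF v m + w)) = g a w := by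
    intro a w hw
    have h1 : ¬ 2 * (v * m) + m + (a * numF v m + w) < v * m := by omega
    have h2 : ¬ 2 * (v * m) + m + (a * numF v m + w) < 2 * (v * m) := by omega
    have h3 : ¬ 2 * (v * m) + m + (a * numF v m + w) < 2 * (v * m) + m := by omega
    have h4 : (2 * (v * m) + m + (a * numF v m + w) - (2 * (v * m) + m)) / numF v m = a := by
      rw [Nat.add_sub_cancel_left, e_div hw]
    have h5 : (2 * (v * m) + m + (a * numF v m + w) - (2 * (v * m) + m)) % numF v m = w := by
      rw [Nat.add_sub_cancel_left, e_mod hw]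
    simp only [f, h1, h2, h3, h4, h5, if_false]
  have hf1 : ∀ u < numK v m, f u < 2 * (v * m) + 1 := by
    intro u hu
    by_cases h1 : u < v * m
    · rw [fV u h1]; have := hgV u h1; omega
    by_cases h2 : u < 2 * (v * m)
    · have : u = v * m + (u - v * m) := by omega
      rw [this, fL _ (by omega)]
      have := hgL (u - v * m) (by omega)
      omega
    by_cases h3 : u < 2 * (v * m) + m
    · have : u = 2 * (v * m) + (u - 2 * (v * m)) := by omega
      rw [this, fC _ (by omega)]
      have := hgC (u - 2 * (v * m)) (by omega)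
      omega
    · set w := u - (2 * (v * m) + m) with hw
      have hu' : u = 2 * (v * m) + m + (w / numF v m * numF v m + w % numF v m) := by
        have := Nat.div_add_mod w (numF v m)
        rw [mul_comm] at this
        omega
      rw [hu', fF _ _ (Nat.mod_lt _ hF)]
      refine ((hg _ ?_).1 _ (Nat.mod_lt _ hF))
      apply Nat.div_lt_of_lt_mul
      unfold numK at hu
      rw [mul_comm]
      omega
  -- loads
  have hload : ∀ b < 2 * (v * m) + 1, ∀ k : Fin 7, load v m f b k =
      ml v m α ch b k + ∑ a ∈ Finset.range 6, c a b * (if (k : ℕ) = a + 1 then 1 else 0) := by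
    intro b hb k
    refine (Eq.trans ?_ (sum_items hF (fun u => f u = b) k)).trans ?_
    · unfold load
      congr
    unfold ml
    congr 1
    · congr 1
      · congr 1
        · apply Finset.sum_congr _ (fun _ _ => rfl)
          ext e
          rw [Finset.mem_filter, Finset.mem_filter, Finset.mem_range]
          constructor
          · rintro ⟨h1, h2⟩
            exact ⟨h1, by rwa [fV e h1] at h2⟩
          · rintro ⟨h1, h2⟩
            exact ⟨h1, by rwa [fV e h1]⟩
        · apply Finset.sum_congr _ (fun _ _ => rfl)
          ext e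
          rw [Finset.mem_filter, Finset.mem_filter, Finset.mem_range]
          constructor
          · rintro ⟨h1, h2⟩
            exact ⟨h1, by rwa [fL e h1] at h2⟩
          · rintro ⟨h1, h2⟩
            exact ⟨h1, by rwa [fL e h1]⟩
      · apply Finset.sum_congr _ (fun _ _ => rfl)
        ext e
        rw [Finset.mem_filter, Finset.mem_filter, Finset.mem_range]
        constructor
        · rintro ⟨h1, h2⟩
          exact ⟨h1, by rwa [fC e h1] at h2⟩
        · rintro ⟨h1, h2⟩
          exact ⟨h1, by rwa [fC e h1]⟩
    · apply Finset.sum_congr rfl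
      intro a ha
      rw [Finset.mem_range] at ha
      congr 1
      rw [← (hg a ha).2 b hb]
      congr 1
      ext w
      rw [Finset.mem_filter, Finset.mem_filter, Finset.mem_range]
      constructor
      · rintro ⟨h1, h2⟩
        exact ⟨h1, by rwa [fF a w h1] at h2⟩
      · rintro ⟨h1, h2⟩
        exact ⟨h1, by rwa [fF a w h1]⟩
  have hload0 : ∀ b < 2 * (v * m) + 1, load v m f b 0 = ml v m α ch b 0 := by
    intro b hb
    rw [hload b hb 0]
    simp
  have hloadk : ∀ b < 2 * (v * m), ∀ k : Fin 7, k ≠ 0 → load v m f b k = dcap v m lit b k := by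
    intro b hb k hk
    rw [hload b (by omega) k]
    obtain ⟨k, hk7⟩ := k
    have hk0 : k ≠ 0 := by
      rintro rfl
      exact hk rfl
    rw [Finset.sum_eq_single (k - 1)]
    · have h6 : k - 1 < 6 := by omega
      have he : (⟨k - 1 + 1, by omega⟩ : Fin 7) = ⟨k, hk7⟩ := by
        apply Fin.ext
        simp only []
        omega
      simp only [c, dif_pos h6, if_pos hb, he]
      rw [if_pos (by omega)]
      have := hml b ⟨k, hk7⟩
      omega
    · intro a _ ha
      simp only []
      rw [if_neg (by omega), mul_zero]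
    · intro h
      rw [Finset.mem_range] at h
      omega
  have hfib : ∀ b < 2 * (v * m), bcap0 v m lit b =
      val (baseN v m) (load v m f b) + (2 - load v m f b 0) := by
    intro b hb
    have h1 : dcap v m lit b = fun k => load v m f b k + (if k = 0 then 2 - load v m f b 0 else 0) := by
      funext k
      by_cases hk : k = 0
      · subst hk
        have h2 := hml b 0
        rw [hload0 b (by omega)]
        simp only [if_true]
        have h3 : dcap v m lit b 0 = 2 := rfl
        rw [h3] at h2 ⊢
        omega
      · rw [hloadk b hb k hk, if_neg hk, add_zero]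
    unfold bcap0
    rw [h1, val_add]
    congr 1
    unfold val
    rw [Fin.sum_univ_succ]
    simp
  refine ⟨f, hf1, ?_⟩
  intro b hb
  rw [← val_load]
  by_cases hb' : b < 2 * (v * m)
  · have : bcap v m lit b = bcap0 v m lit b := if_pos hb'
    rw [this, hfib b hb']
    omega
  · have hbe : b = 2 * (v * m) := by omega
    subst hbe
    have e1 : bcap v m lit (2 * (v * m)) = (psum (isize v m) (numK v m) + (v * m - m)) -
        psum (bcap0 v m lit) (2 * (v * m)) := if_neg (lt_irrefl _)
    have e2 := sum_isize_fiber hf1
    simp only [← val_load] at e2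
    rw [Finset.sum_range_succ] at e2
    have e3 : psum (bcap0 v m lit) (2 * (v * m)) =
        ∑ b ∈ Finset.range (2 * (v * m)), val (baseN v m) (load v m f b) +
        ∑ b ∈ Finset.range (2 * (v * m)), (2 - load v m f b 0) := by
      rw [← Finset.sum_add_distrib]
      exact Finset.sum_congr rfl fun b hb => hfib b (Finset.mem_range.1 hb)
    -- total of the digit `0`
    have e4 : ∑ b ∈ Finset.range (2 * (v * m)), (2 - load v m f b 0) +
        ∑ b ∈ Finset.range (2 * (v * m)), load v m f b 0 = 2 * (v * m) * 2 := by
      rw [← Finset.sum_add_distrib]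
      rw [Finset.sum_congr rfl (g := fun _ => 2)]
      · simp
      · intro b hb
        rw [Finset.mem_range] at hb
        have h2 := hml b 0
        rw [← hload0 b (by omega)] at h2
        have h3 : dcap v m lit b 0 = 2 := rfl
        omega
    have e5 := sum_load hf1 0
    rw [Finset.sum_range_succ] at e5
    have e6 : load v m f (2 * (v * m)) 0 = 0 := by
      rw [hload0 _ hb]
      unfold ml
      have k1 : (Finset.range (v * m)).filter (fun e => gV m α e = 2 * (v * m)) = ∅ := by
        rw [Finset.filter_eq_empty_iff]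
        intro e he he'
        have := hgV e (Finset.mem_range.1 he)
        omega
      have k2 : (Finset.range (v * m)).filter (fun e => gL m α e = 2 * (v * m)) = ∅ := by
        rw [Finset.filter_eq_empty_iff]
        intro e he he'
        have := hgL e (Finset.mem_range.1 he)
        omega
      have k3 : (Finset.range m).filter (fun j => gC m α ch j = 2 * (v * m)) = ∅ := by
        rw [Finset.filter_eq_empty_iff]
        intro e he he'
        have := hgC e (Finset.mem_range.1 he)
        omega
      rw [k1, k2, k3]
      simp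
    have e7 := tot_le hv hm 0
    simp only [if_true] at e7
    rw [e1]
    have e8 := psum_bcap0_le (lit := lit) hv hm
    omega

/-- **The packing instance is solvable iff the formula is satisfiable.** -/
theorem packing_iff_sat (hv : 0 < v) (hm : 0 < m) :
    (∃ f, IsPacking (2 * (v * m) + 1) (numK v m) (bcap v m lit) (isize v m) f) ↔ SatN v m lit :=
  ⟨fun ⟨_, hf⟩ => sat_of_packing hv hm hf, packing_of_sat hv hm⟩

/-- side length of the board -/
noncomputable def sideN (v m : ℕ) (lit : ℕ → ℕ → ℕ → Prop) : ℕ :=
  4 * (2 * (v * m) + 1) + psum (bcap v m lit) (2 * (v * m) + 1) + 6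

/-- **The puzzle is solvable iff the formula is satisfiable.** -/
theorem placement_iff_sat (hv : 0 < v) (hm : 0 < m) :
    (∃ pos, IsPlacement (sideN v m lit) (Edge (sideN v m lit) (2 * (v * m) + 1) (numK v m)
      (bcap v m lit) (isize v m)) pos) ↔ SatN v m lit := by
  rw [← packing_iff_sat hv hm]
  have h1 : 4 * (2 * (v * m) + 1) + 3 ≤ sideN v m lit := by unfold sideN; omega
  have h2 : ∀ b < 2 * (v * m) + 1, bcap v m lit b + 6 ≤ sideN v m lit := by
    intro b hb
    have := Finset.single_le_sum (f := bcap v m lit) (fun _ _ => Nat.zero_le _)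
      (Finset.mem_range.2 hb)
    unfold sideN psum
    omega
  have h3 : psum (isize v m) (numK v m) ≤ psum (bcap v m lit) (2 * (v * m) + 1) := by
    rw [psum_bcap hv hm]; omega
  constructor
  · rintro ⟨pos, hp⟩
    exact packing_of_placement h1 h2 h3 (fun u hu => isize_pos hv hm hu) hp
  · rintro ⟨f, hf⟩
    exact placement_of_packing h1 h2 h3 hf

end Pool.Agent.Helper88.Boggle
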